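import Mathlib

/-!
# Windows around the values of generic systems of linear forms: sets with a logarithmic saving

The measure-theoretic companion of `Pool.Agent.N251.LF.Tuples`: if a set `S` has at most `X ^ m / (log X) ^ U` elements with
all coordinates at most `X`, for every `U`, and the family `v` of vectors in `ℝ ^ k` is so sparse that the sum of the
`1 / (log ‖v_i‖) ^ A` converges for some `A`, then for almost all `m × k` matrices `α`, for all but finitely many `i` there are
no elements of `S` within a power of `log ‖v_i‖` of `α v_i`.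
-/

set_option autoImplicit false

namespace Pool.Agent.N251.LF

open MeasureTheory Filter Finset

/-- the volume of an intersection of slabs and a cube -/
theorem vol_slabs {m k : ℕ} (j0 : Fin k) (R : ℝ) : ∃ K : ENNReal, K ≠ ⊤ ∧ ∀ (v : Fin k → ℝ) (y : Fin m → ℝ) (w : ℝ),
    v j0 ≠ 0 → volume {α : Fin m × Fin k → ℝ | (∀ p, |α p| ≤ R) ∧ ∀ l, |∑ j, α (l, j) * v j - y l| ≤ w} ≤
      K * ENNReal.ofReal (2 * w / |v j0|) ^ m := by
  classical
  set P : Fin m × Fin k → Prop := fun p => p.2 = j0 with hP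
  refine ⟨volume {z : {p : Fin m × Fin k // ¬ P p} → ℝ | ∀ q, |z q| ≤ R}, ?_, fun v y w hv => ?_⟩
  · have : {z : {p : Fin m × Fin k // ¬ P p} → ℝ | ∀ q, |z q| ≤ R} ⊆ Set.Icc (fun _ => -R) (fun _ => R) := by
      intro z hz
      exact ⟨fun q => (abs_le.1 (hz q)).1, fun q => (abs_le.1 (hz q)).2⟩
    exact ((measure_mono this).trans_lt isCompact_Icc.measure_lt_top).ne
  · set g : Fin m → ({p : Fin m × Fin k // ¬ P p} → ℝ) → ℝ := fun l z =>
      ∑ j : {j : Fin k // j ≠ j0}, z ⟨(l, j.1), j.2⟩ * v j.1 with hg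
    set B : Set (({p : Fin m × Fin k // P p} → ℝ) × ({p : Fin m × Fin k // ¬ P p} → ℝ)) :=
      {x | (∀ l, |x.1 ⟨(l, j0), rfl⟩ * v j0 + g l x.2 - y l| ≤ w) ∧ ∀ q, |x.2 q| ≤ R} with hB
    have hgm : ∀ l, Measurable (g l) := by
      intro l
      rw [hg]
      exact Finset.measurable_sum _ fun j _ => (measurable_pi_apply _).mul_const _
    have hBm : MeasurableSet B := by
      rw [hB]
      have e : {x : ({p : Fin m × Fin k // P p} → ℝ) × ({p : Fin m × Fin k // ¬ P p} → ℝ) |
          (∀ l, |x.1 ⟨(l, j0), rfl⟩ * v j0 + g l x.2 - y l| ≤ w) ∧ ∀ q, |x.2 q| ≤ R} =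
          (⋂ l, {x | |x.1 ⟨(l, j0), rfl⟩ * v j0 + g l x.2 - y l| ≤ w}) ∩ ⋂ q, {x | |x.2 q| ≤ R} := by
        ext x
        simp
      rw [e]
      refine (MeasurableSet.iInter fun l => ?_).inter (MeasurableSet.iInter fun q => ?_)
      · refine measurableSet_le ?_ measurable_const
        refine Measurable.abs ?_
        exact ((((measurable_pi_apply _).comp measurable_fst).mul_const _).add ((hgm l).comp measurable_snd)).sub_const _
      · exact measurableSet_le ((measurable_pi_apply q).comp measurable_snd).abs measurable_const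
    have hpre : {α : Fin m × Fin k → ℝ | (∀ p, |α p| ≤ R) ∧ ∀ l, |∑ j, α (l, j) * v j - y l| ≤ w} ⊆
        (MeasurableEquiv.piEquivPiSubtypeProd (fun _ : Fin m × Fin k => ℝ) P) ⁻¹' B := by
      rintro α ⟨h1, h2⟩
      refine ⟨fun l => ?_, fun q => h1 q.1⟩
      have h3 := h2 l
      rw [Fintype.sum_eq_add_sum_subtype_ne (fun j => α (l, j) * v j) j0] at h3
      exact h3
    refine (measure_mono hpre).trans ?_
    rw [(volume_preserving_piEquivPiSubtypeProd (fun _ : Fin m × Fin k => ℝ) P).measure_preimage hBm.nullMeasurableSet]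
    rw [Measure.volume_eq_prod, Measure.prod_apply_symm hBm]
    have hsec : ∀ z : {p : Fin m × Fin k // ¬ P p} → ℝ, volume ((fun x => (x, z)) ⁻¹' B) ≤
        ({z | ∀ q, |z q| ≤ R} : Set ({p : Fin m × Fin k // ¬ P p} → ℝ)).indicator
          (fun _ => ENNReal.ofReal (2 * w / |v j0|) ^ m) z := by
      intro z
      by_cases hz : ∀ q, |z q| ≤ R
      · rw [Set.indicator_of_mem (show z ∈ {z | ∀ q, |z q| ≤ R} from hz)]
        have hsub : (fun x => (x, z)) ⁻¹' B ⊆ Set.pi Set.univ (fun q : {p : Fin m × Fin k // P p} =>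
            Set.Icc ((y q.1.1 - g q.1.1 z) / v j0 - w / |v j0|) ((y q.1.1 - g q.1.1 z) / v j0 + w / |v j0|)) := by
          intro x hx q _
          obtain ⟨⟨l, j⟩, hq⟩ := q
          have hj : j = j0 := hq
          subst hj
          have h4 : |x ⟨(l, j), rfl⟩ * v j + g l z - y l| ≤ w := hx.1 l
          have h5 : |x ⟨(l, j), rfl⟩ - (y l - g l z) / v j| ≤ w / |v j| := by
            rw [le_div_iff₀ (abs_pos.2 hv), ← abs_mul, sub_mul, div_mul_cancel₀ _ hv]
            have : x ⟨(l, j), rfl⟩ * v j - (y l - g l z) = x ⟨(l, j), rfl⟩ * v j + g l z - y l := by ring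
            rw [this]
            exact h4
          have h6 := abs_le.1 h5
          exact ⟨by linarith [h6.1], by linarith [h6.2]⟩
        refine (measure_mono hsub).trans (le_of_eq ?_)
        rw [volume_pi_pi]
        have h7 : ∀ q : {p : Fin m × Fin k // P p}, volume (Set.Icc ((y q.1.1 - g q.1.1 z) / v j0 - w / |v j0|)
            ((y q.1.1 - g q.1.1 z) / v j0 + w / |v j0|)) = ENNReal.ofReal (2 * w / |v j0|) := by
          intro q
          rw [Real.volume_Icc]
          congr 1
          ring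
        rw [Finset.prod_congr rfl fun q _ => h7 q, Finset.prod_const, Finset.card_univ]
        congr 1
        have e : {p : Fin m × Fin k // P p} ≃ Fin m :=
          ⟨fun p => p.1.1, fun l => ⟨(l, j0), rfl⟩, fun p => by
            obtain ⟨⟨l, j⟩, hq⟩ := p
            have hj : j = j0 := hq
            subst hj
            rfl, fun l => rfl⟩
        rw [Fintype.card_congr e, Fintype.card_fin]
      · rw [Set.indicator_of_notMem (show z ∉ {z | ∀ q, |z q| ≤ R} from hz)]
        have : (fun x => (x, z)) ⁻¹' B = ∅ := by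
          ext x
          simp only [Set.mem_preimage, Set.mem_empty_iff_false, iff_false]
          rintro ⟨-, h2⟩
          exact hz h2
        rw [this, measure_empty]
    refine (lintegral_mono hsec).trans (le_of_eq ?_)
    have hbox : MeasurableSet ({z | ∀ q, |z q| ≤ R} : Set ({p : Fin m × Fin k // ¬ P p} → ℝ)) := by
      have e : ({z | ∀ q, |z q| ≤ R} : Set ({p : Fin m × Fin k // ¬ P p} → ℝ)) = ⋂ q, {z | |z q| ≤ R} := by
        ext z
        simp
      rw [e]
      exact MeasurableSet.iInter fun q => measurableSet_le (measurable_pi_apply q).abs measurable_const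
    rw [lintegral_indicator hbox, setLIntegral_const, mul_comm]

/-- the Borel-Cantelli lemma for slabs -/
theorem ae_core {m k : ℕ} (j0 : Fin k) {ι T : Type} [Countable ι] (v : ι → Fin k → ℝ) (hv1 : ∀ i, v i j0 ≠ 0)
    (F : ι → Finset T) (h : T → Fin m → ℝ) (w : ι → ℝ) (hw : ∀ i, 0 ≤ w i)
    (hsum : Summable fun i => ((F i).card : ℝ) * (w i / |v i j0|) ^ m) (R : ℝ) :
    ∀ᵐ α : Fin m × Fin k → ℝ, (∀ p, |α p| ≤ R) →
      {i | ∃ t ∈ F i, ∀ l, |∑ j, α (l, j) * v i j - h t l| ≤ w i}.Finite := by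
  obtain ⟨K, hK, hvol⟩ := vol_slabs (m := m) j0 R
  set s : ι → Set (Fin m × Fin k → ℝ) := fun i => {α | (∀ p, |α p| ≤ R) ∧
    ∃ t ∈ F i, ∀ l, |∑ j, α (l, j) * v i j - h t l| ≤ w i} with hs
  have hs1 : ∀ i, volume (s i) ≤ (K * 2 ^ m) * ENNReal.ofReal (((F i).card : ℝ) * (w i / |v i j0|) ^ m) := by
    intro i
    have hsub : s i ⊆ ⋃ t ∈ F i, {α : Fin m × Fin k → ℝ | (∀ p, |α p| ≤ R) ∧
        ∀ l, |∑ j, α (l, j) * v i j - h t l| ≤ w i} := by
      rintro α ⟨h1, t, ht, h2⟩
      rw [Set.mem_iUnion₂]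
      exact ⟨t, ht, h1, h2⟩
    have hnn : 0 ≤ w i / |v i j0| := div_nonneg (hw i) (abs_nonneg _)
    calc volume (s i) ≤ ∑ t ∈ F i, volume {α : Fin m × Fin k → ℝ | (∀ p, |α p| ≤ R) ∧
          ∀ l, |∑ j, α (l, j) * v i j - h t l| ≤ w i} := (measure_mono hsub).trans (measure_biUnion_finset_le _ _)
      _ ≤ ∑ _t ∈ F i, K * ENNReal.ofReal (2 * w i / |v i j0|) ^ m :=
          Finset.sum_le_sum fun t _ => hvol (v i) (h t) (w i) (hv1 i)
      _ = (F i).card * (K * ENNReal.ofReal (2 * w i / |v i j0|) ^ m) := by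
          rw [Finset.sum_const, nsmul_eq_mul]
      _ = (K * 2 ^ m) * ENNReal.ofReal (((F i).card : ℝ) * (w i / |v i j0|) ^ m) := by
          rw [ENNReal.ofReal_mul (Nat.cast_nonneg _), ENNReal.ofReal_natCast, mul_div_assoc,
            ENNReal.ofReal_mul (by norm_num), mul_pow, ENNReal.ofReal_pow hnn]
          have : ENNReal.ofReal 2 = 2 := by simp
          rw [this]
          ring
  have htot : ∑' i, volume (s i) ≠ ⊤ := by
    refine ne_top_of_le_ne_top ?_ (ENNReal.tsum_le_tsum hs1)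
    rw [ENNReal.tsum_mul_left]
    refine ENNReal.mul_ne_top (ENNReal.mul_ne_top hK (by simp)) ?_
    exact hsum.tsum_ofReal_ne_top
  have h1 := ae_finite_setOfPred_mem htot
  filter_upwards [h1] with α hα hR
  refine hα.subset ?_
  intro i hi
  exact ⟨hR, hi⟩

/-- the sum of the `1 / (1 + log (1 + ‖v i‖)) ^ A` converges for some `A` -/
def Slow {k : ℕ} {ι : Type} (v : ι → Fin k → ℝ) : Prop :=
  ∃ A : ℕ, Summable fun i => 1 / (1 + Real.log (1 + ‖v i‖)) ^ A

lemma Slow.finite {k : ℕ} {ι : Type} {v : ι → Fin k → ℝ} (hv : Slow v) (X : ℝ) : {i | ‖v i‖ ≤ X}.Finite := by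
  obtain ⟨A, hA⟩ := hv
  have h0 : ∀ i, (1 : ℝ) ≤ 1 + Real.log (1 + ‖v i‖) := fun i => by
    have := Real.log_nonneg (show (1 : ℝ) ≤ 1 + ‖v i‖ by linarith [norm_nonneg (v i)])
    linarith
  by_cases hX : X < 0
  · have : {i | ‖v i‖ ≤ X} = ∅ := by
      ext i
      simp only [Set.mem_ofPred_eq, Set.mem_empty_iff_false, iff_false, not_le]
      exact hX.trans_le (norm_nonneg _)
    rw [this]
    exact Set.finite_empty
  · have hX0 : 0 ≤ X := not_lt.1 hX
    have hL : (1 : ℝ) ≤ 1 + Real.log (1 + X) := by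
      have := Real.log_nonneg (show (1 : ℝ) ≤ 1 + X by linarith)
      linarith
    have h1 := hA.tendsto_cofinite_zero.eventually (gt_mem_nhds (show 0 < 1 / (1 + Real.log (1 + X)) ^ A by positivity))
    rw [Filter.eventually_cofinite] at h1
    refine h1.subset ?_
    intro i hi
    have hi' : ‖v i‖ ≤ X := hi
    simp only [Set.mem_ofPred_eq, not_lt]
    refine one_div_le_one_div_of_le (by have := h0 i; positivity) ?_
    refine pow_le_pow_left₀ (by linarith [h0 i]) ?_ A
    have := Real.log_le_log (by linarith [norm_nonneg (v i)] : (0 : ℝ) < 1 + ‖v i‖) (show 1 + ‖v i‖ ≤ 1 + X by linarith)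
    linarith

lemma Slow.countable {k : ℕ} {ι : Type} {v : ι → Fin k → ℝ} (hv : Slow v) : Countable ι := by
  rw [← Set.countable_univ_iff]
  have : (Set.univ : Set ι) = ⋃ n : ℕ, {i | ‖v i‖ ≤ (n : ℝ)} := by
    refine (Set.eq_univ_of_forall fun i => ?_).symm
    obtain ⟨n, hn⟩ := exists_nat_ge ‖v i‖
    exact Set.mem_iUnion.2 ⟨n, hn⟩
  rw [this]
  exact Set.countable_iUnion fun n => (hv.finite n).countable

lemma norm_eq' {k : ℕ} {v : Fin k → ℝ} {j0 : Fin k} (h : ∀ j, |v j| ≤ |v j0|) : ‖v‖ = |v j0| :=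
  le_antisymm ((pi_norm_le_iff_of_nonneg (abs_nonneg _)).2 h) (norm_le_pi_norm v j0)

/-- **Main tool.** -/
theorem ae_tuples {T ι : Type} {m k : ℕ} (S : Set T) (h : T → Fin m → ℝ)
    (hS : ∀ U : ℕ, ∃ C X₀ : ℝ, ∀ X : ℝ, X₀ ≤ X → {t | t ∈ S ∧ ∀ l, |h t l| ≤ X}.Finite ∧
      (({t | t ∈ S ∧ ∀ l, |h t l| ≤ X}.ncard : ℕ) : ℝ) ≤ C * X ^ m / Real.log X ^ U)
    (v : ι → Fin k → ℝ) (hv : Slow v) :
    ∀ᵐ α : Fin m × Fin k → ℝ, ∀ (c : ℝ) (B : ℕ),
      {i | ∃ t ∈ S, ∀ l, |h t l - ∑ j, α (l, j) * v i j| ≤ c * (1 + Real.log (1 + ‖v i‖)) ^ B}.Finite := by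
  classical
  have : Countable ι := hv.countable
  obtain ⟨A, hA⟩ := id hv
  have key : ∀ (j0 : Fin k) (R c B : ℕ), ∀ᵐ α : Fin m × Fin k → ℝ, (∀ p, |α p| ≤ R) →
      {i | (∀ j, |v i j| ≤ |v i j0|) ∧ ∃ t ∈ S, ∀ l, |h t l - ∑ j, α (l, j) * v i j| ≤
        c * (1 + Real.log (1 + ‖v i‖)) ^ B}.Finite := by
    intro j0 R c B
    obtain ⟨C, X₀, hC⟩ := hS (A + B * m)
    -- `(1 + log (1 + x)) ^ B ≤ x` for large `x`
    have hlarge : ∀ᶠ x : ℝ in atTop, (1 + Real.log (1 + x)) ^ B ≤ x := by
      have h1 := isLittleO_log_rpow_rpow_atTop (B : ℝ) (show (0 : ℝ) < 1 by norm_num)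
      have h2 : Tendsto (fun x : ℝ => Real.exp 1 * (1 + x)) atTop atTop :=
        (tendsto_atTop_add_const_left _ 1 tendsto_id).const_mul_atTop (Real.exp_pos 1)
      have h3 := h2.eventually (h1.bound (show (0 : ℝ) < 1 / (2 * Real.exp 1) by positivity))
      filter_upwards [h3, eventually_ge_atTop (1 : ℝ)] with x h4 h5
      have h6 : Real.log (Real.exp 1 * (1 + x)) = 1 + Real.log (1 + x) := by
        rw [Real.log_mul (Real.exp_pos 1).ne' (by linarith), Real.log_exp]
      have h7 : 0 ≤ 1 + Real.log (1 + x) := by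
        have := Real.log_nonneg (show (1 : ℝ) ≤ 1 + x by linarith)
        linarith
      rw [h6, Real.rpow_natCast, Real.rpow_one, Real.norm_of_nonneg (pow_nonneg h7 _),
        Real.norm_of_nonneg (by positivity)] at h4
      refine h4.trans ?_
      have : 1 / (2 * Real.exp 1) * (Real.exp 1 * (1 + x)) = (1 + x) / 2 := by
        field_simp
      rw [this]
      linarith
    obtain ⟨X₁, hX₁⟩ := eventually_atTop.1 hlarge
    set M : ℝ := (k : ℝ) * R + c + 1 with hM
    have hM1 : 1 ≤ M := by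
      have : (0 : ℝ) ≤ (k : ℝ) * R + c := by positivity
      linarith
    obtain ⟨Y, hY⟩ : ∃ Y : ℝ, Y = max X₁ (max X₀ (Real.exp 1)) := ⟨_, rfl⟩
    have hYX₁ : X₁ ≤ Y := by rw [hY]; exact le_max_left _ _
    have hYX₀ : X₀ ≤ Y := by rw [hY]; exact (le_max_left _ _).trans (le_max_right _ _)
    have hYe : Real.exp 1 ≤ Y := by rw [hY]; exact (le_max_right _ _).trans (le_max_right _ _)
    have he1 : (1 : ℝ) ≤ Real.exp 1 := Real.one_le_exp (by norm_num)
    set I : Type := {i : ι // (∀ j, |v i j| ≤ |v i j0|) ∧ Y ≤ ‖v i‖} with hI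
    have hIn : ∀ i : I, ‖v i.1‖ = |v i.1 j0| := fun i => norm_eq' i.2.1
    have hfin : ∀ i : I, {t | t ∈ S ∧ ∀ l, |h t l| ≤ M * |v i.1 j0|}.Finite := by
      intro i
      refine (hC _ ?_).1
      have h1 := i.2.2
      rw [hIn] at h1
      have h2 : |v i.1 j0| ≤ M * |v i.1 j0| := le_mul_of_one_le_left (abs_nonneg _) hM1
      linarith
    have hcore := ae_core (m := m) j0 (fun i : I => v i.1) (fun i => by
        have h1 := i.2.2
        rw [hIn] at h1
        have : 0 < |v i.1 j0| := by linarith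
        exact abs_pos.1 this) (fun i => (hfin i).toFinset) h
      (fun i => c * (1 + Real.log (1 + ‖v i.1‖)) ^ B) (fun i => by
        have := Real.log_nonneg (show (1 : ℝ) ≤ 1 + ‖v i.1‖ by linarith [norm_nonneg (v i.1)])
        positivity) (by
        have hA' : Summable fun i : I => (|C| * M ^ m * (c : ℝ) ^ m * 3 ^ (A + B * m)) *
            (1 / (1 + Real.log (1 + ‖v i.1‖)) ^ A) := (hA.comp_injective Subtype.val_injective).mul_left _
        refine Summable.of_nonneg_of_le (fun i => ?_) (fun i => ?_) hA'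
        · have := Real.log_nonneg (show (1 : ℝ) ≤ 1 + ‖v i.1‖ by linarith [norm_nonneg (v i.1)])
          positivity
        · have h1 := i.2.2
          rw [hIn] at h1
          obtain ⟨N, hN⟩ : ∃ N : ℝ, N = ((hfin i).toFinset.card : ℝ) := ⟨_, rfl⟩
          rw [← hN]
          obtain ⟨x, hx⟩ : ∃ x : ℝ, x = |v i.1 j0| := ⟨_, rfl⟩
          have hx' : N ≤ C * (M * x) ^ m / Real.log (M * x) ^ (A + B * m) := by
            have h2 := (hC (M * |v i.1 j0|) (by
              have h2 : |v i.1 j0| ≤ M * |v i.1 j0| := le_mul_of_one_le_left (abs_nonneg _) hM1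
              linarith)).2
            rw [Set.ncard_eq_toFinset_card _ (hfin i)] at h2
            rw [hN, hx]
            exact h2
          rw [hIn, ← hx]
          rw [← hx] at h1
          have hx1 : Real.exp 1 ≤ x := hYe.trans h1
          have hx0 : 0 < x := by linarith
          have hlog1 : 1 ≤ Real.log x := by
            rw [Real.le_log_iff_exp_le hx0]
            exact hx1
          have hlogM : Real.log x ≤ Real.log (M * x) := Real.log_le_log hx0 (le_mul_of_one_le_left hx0.le hM1)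
          obtain ⟨L, hL⟩ : ∃ L : ℝ, L = 1 + Real.log (1 + x) := ⟨_, rfl⟩
          have hL1 : 1 ≤ L := by
            have := Real.log_nonneg (show (1 : ℝ) ≤ 1 + x by linarith)
            linarith
          have hL3 : L ≤ 3 * Real.log x := by
            have h3 : Real.log (1 + x) ≤ Real.log (Real.exp 1 * x) := by
              refine Real.log_le_log (by linarith) ?_
              have : (2 : ℝ) ≤ Real.exp 1 := by
                have := Real.add_one_le_exp (1 : ℝ)
                linarith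
              nlinarith
            rw [Real.log_mul (Real.exp_pos 1).ne' hx0.ne', Real.log_exp] at h3
            linarith
          rw [← hL]
          have hLpos : 0 < L := by linarith
          have h4 : (L / 3) ^ (A + B * m) ≤ Real.log (M * x) ^ (A + B * m) :=
            pow_le_pow_left₀ (by positivity) (by linarith) _
          have h5 : C * (M * x) ^ m / Real.log (M * x) ^ (A + B * m) ≤ |C| * (M * x) ^ m / (L / 3) ^ (A + B * m) := by
            have h6 : 0 < (L / 3) ^ (A + B * m) := by positivity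
            have h7 : C * (M * x) ^ m ≤ |C| * (M * x) ^ m := mul_le_mul_of_nonneg_right (le_abs_self C) (by positivity)
            exact div_le_div₀ (by positivity) h7 h6 h4
          calc N * (c * L ^ B / x) ^ m
              ≤ (|C| * (M * x) ^ m / (L / 3) ^ (A + B * m)) * (c * L ^ B / x) ^ m :=
                mul_le_mul_of_nonneg_right (hx'.trans h5) (by positivity)
            _ = |C| * M ^ m * (c : ℝ) ^ m * 3 ^ (A + B * m) * (1 / L ^ A) := by
                rw [div_pow, div_pow, mul_pow, mul_pow, pow_add L, ← pow_mul]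
                field_simp) (R : ℝ)
    filter_upwards [hcore] with α hα hR
    have h1 := hα hR
    refine ((h1.image Subtype.val).union (hv.finite Y)).subset ?_
    rintro i ⟨h2, t, ht, h3⟩
    rcases le_total ‖v i‖ Y with h4 | h4
    · right
      exact h4
    · left
      refine ⟨⟨i, h2, h4⟩, ⟨t, ?_, fun l => ?_⟩, rfl⟩
      · rw [Set.Finite.mem_toFinset]
        refine ⟨ht, fun l => ?_⟩
        have h5 := h3 l
        have hn := norm_eq' h2
        have h6 : (1 + Real.log (1 + ‖v i‖)) ^ B ≤ ‖v i‖ := hX₁ _ (hYX₁.trans h4)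
        have h7 : |∑ j, α (l, j) * v i j| ≤ (k : ℝ) * R * |v i j0| := by
          refine (Finset.abs_sum_le_sum_abs _ _).trans ?_
          have : ∀ j ∈ (Finset.univ : Finset (Fin k)), |α (l, j) * v i j| ≤ R * |v i j0| := by
            intro j _
            rw [abs_mul]
            exact mul_le_mul (hR (l, j)) (h2 j) (abs_nonneg _) (Nat.cast_nonneg R)
          refine (Finset.sum_le_sum this).trans (le_of_eq ?_)
          rw [Finset.sum_const, Finset.card_univ, Fintype.card_fin, nsmul_eq_mul]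
          ring
        have h8 : (c : ℝ) * (1 + Real.log (1 + ‖v i‖)) ^ B ≤ c * |v i j0| := by
          rw [← hn]
          exact mul_le_mul_of_nonneg_left h6 (Nat.cast_nonneg c)
        show |h t l| ≤ M * |v i j0|
        have h9 : h t l = (h t l - ∑ j, α (l, j) * v i j) + ∑ j, α (l, j) * v i j := by ring
        rw [h9]
        refine (abs_add_le _ _).trans ?_
        rw [hM]
        have h10 := abs_nonneg (v i j0)
        nlinarith
      · show |∑ j, α (l, j) * v i j - h t l| ≤ c * (1 + Real.log (1 + ‖v i‖)) ^ B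
        rw [abs_sub_comm]
        exact h3 l
  have key2 : ∀ᵐ α : Fin m × Fin k → ℝ, ∀ (j0 : Fin k) (R c B : ℕ), (∀ p, |α p| ≤ R) →
      {i | (∀ j, |v i j| ≤ |v i j0|) ∧ ∃ t ∈ S, ∀ l, |h t l - ∑ j, α (l, j) * v i j| ≤
        c * (1 + Real.log (1 + ‖v i‖)) ^ B}.Finite := by
    rw [ae_all_iff]; intro j0
    rw [ae_all_iff]; intro R
    rw [ae_all_iff]; intro c
    rw [ae_all_iff]; intro B
    exact key j0 R c B
  filter_upwards [key2] with α hα c B
  obtain ⟨R, hR⟩ := exists_nat_ge ‖α‖
  obtain ⟨c', hc'⟩ := exists_nat_ge c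
  rcases isEmpty_or_nonempty (Fin k) with hk | hk
  · -- `k = 0`
    refine (hv.finite 0).subset fun i _ => ?_
    exact (pi_norm_le_iff_of_nonneg le_rfl).2 fun j => (hk.false j).elim
  · refine (Set.finite_iUnion fun j0 : Fin k => hα j0 R c' B fun p => (norm_le_pi_norm α p).trans hR).subset ?_
    rintro i ⟨t, ht, h1⟩
    obtain ⟨j0, hj0⟩ := Finite.exists_max (fun j => |v i j|)
    rw [Set.mem_iUnion]
    refine ⟨j0, hj0, t, ht, fun l => (h1 l).trans ?_⟩
    have := Real.log_nonneg (show (1 : ℝ) ≤ 1 + ‖v i‖ by linarith [norm_nonneg (v i)])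
    exact mul_le_mul_of_nonneg_right hc' (by positivity)

end Pool.Agent.N251.LF
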