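import Pool.Agent.N251.LF.AeTools
import Pool.Agent.N375.AV.C

/-!
# All integers near the values of generic linear forms, from counts of the exceptions with the saving `exp (- c (log x) ^ β)`
-/

set_option autoImplicit false

open MeasureTheory Filter Finset

namespace Pool.Agent.N251.LF

/-- from the saving `exp (- c (log x) ^ β)` to all powers of the logarithm -/
theorem count_exp {β : ℝ} (hβ : 0 < β) (P : ℕ → Prop)
    (h : ∃ c K : ℝ, 0 < c ∧ ∀ x : ℕ, 1 ≤ x →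
      ({n : ℕ | 1 ≤ n ∧ n ≤ x ∧ ¬ P n}.ncard : ℝ) ≤ K * x * Real.exp (-(c * Real.log x ^ β))) :
    ∀ U : ℕ, ∃ C X₀ : ℝ, ∀ X : ℝ, X₀ ≤ X →
      {t | t ∈ {n | ¬ P n} ∧ ∀ l : Fin 1, |(((fun _ => t : Fin 1 → ℕ) l : ℕ) : ℝ)| ≤ X}.Finite ∧
      (({t | t ∈ {n | ¬ P n} ∧ ∀ l : Fin 1, |(((fun _ => t : Fin 1 → ℕ) l : ℕ) : ℝ)| ≤ X}.ncard : ℕ) : ℝ) ≤
        C * X ^ 1 / Real.log X ^ U := by
  refine count_gen (m := 1) {n | ¬ P n} (fun t _ => t) fun U => ?_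
  obtain ⟨c, K, hc, hK⟩ := h
  obtain ⟨K₁, hK₁, h1⟩ := Pool.Agent.N375.AV.absorb (U + 1) hβ hc
  obtain ⟨K₂, hK₂, h2⟩ := Pool.Agent.N375.AV.absorb (U + 1) one_pos one_pos
  obtain ⟨X₀, hX₀⟩ := exists_nat_ge (Real.exp (2 * (|K| * K₁) + 2 * K₂ + 1))
  refine ⟨X₀, fun X hX => ?_⟩
  have hXX : Real.exp (2 * (|K| * K₁) + 2 * K₂ + 1) ≤ X := hX₀.trans (by exact_mod_cast hX)
  have hX0 : (0 : ℝ) < X := lt_of_lt_of_le (Real.exp_pos _) hXX
  have hXn : 1 ≤ X := by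
    have : 0 < X := by exact_mod_cast hX0
    omega
  obtain ⟨L, hL⟩ : ∃ L : ℝ, L = Real.log X := ⟨_, rfl⟩
  have hLl : 2 * (|K| * K₁) + 2 * K₂ + 1 ≤ L := by
    rw [hL, Real.le_log_iff_exp_le hX0]
    exact hXX
  have hkk : 0 ≤ |K| * K₁ := mul_nonneg (abs_nonneg K) hK₁
  have hL0 : 0 < L := by linarith
  have hsub : {t | t ∈ {n | ¬ P n} ∧ ∀ _l : Fin 1, t ≤ X} ⊆ insert 0 {n : ℕ | 1 ≤ n ∧ n ≤ X ∧ ¬ P n} := by
    rintro t ⟨ht, ht2⟩
    rcases Nat.eq_zero_or_pos t with h0 | h0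
    · exact Or.inl h0
    · exact Or.inr ⟨h0, ht2 0, ht⟩
  have hfin : {n : ℕ | 1 ≤ n ∧ n ≤ X ∧ ¬ P n}.Finite := (Set.finite_Icc 1 X).subset fun n hn => ⟨hn.1, hn.2.1⟩
  refine ⟨(hfin.insert 0).subset hsub, ?_⟩
  have h3 := (Set.ncard_le_ncard hsub (hfin.insert 0)).trans (Set.ncard_insert_le _ _)
  have h4 : (({t | t ∈ {n | ¬ P n} ∧ ∀ _l : Fin 1, t ≤ X}.ncard : ℕ) : ℝ) ≤
      ({n : ℕ | 1 ≤ n ∧ n ≤ X ∧ ¬ P n}.ncard : ℝ) + 1 := by exact_mod_cast h3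
  have h5 := hK X hXn
  rw [← hL] at h5 ⊢
  rw [pow_one]
  have hLU : 0 < L ^ U := by positivity
  -- the two terms
  have e1 : 1 ≤ 1 / 2 * (X / L ^ U) := by
    have h6 := h2 L hL0.le
    rw [Real.rpow_one, one_mul] at h6
    have h7 : Real.exp L = X := by rw [hL, Real.exp_log hX0]
    rw [h7, pow_succ] at h6
    have h8 : L ^ U ≤ (1 + L) ^ U := pow_le_pow_left₀ hL0.le (by linarith) U
    have h9 : L ^ U * (2 * K₂) ≤ K₂ * X := by
      calc L ^ U * (2 * K₂) ≤ (1 + L) ^ U * (1 + L) :=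
            mul_le_mul h8 (by linarith) (by positivity) (by positivity)
        _ ≤ K₂ * X := h6
    have h10 : 0 < K₂ := by
      by_contra hcon
      have : K₂ = 0 := le_antisymm (not_lt.1 hcon) hK₂
      rw [this, zero_mul] at h6
      have : 0 < (1 + L) ^ U * (1 + L) := by positivity
      linarith
    have h11 : 2 * L ^ U ≤ X := by
      have : K₂ * (2 * L ^ U) ≤ K₂ * X := by linarith
      exact le_of_mul_le_mul_left this h10
    rw [← mul_div_assoc, le_div_iff₀ hLU]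
    linarith
  have e2 : K * X * Real.exp (-(c * L ^ β)) ≤ 1 / 2 * (X / L ^ U) := by
    have h6 := h1 L hL0.le
    rw [pow_succ] at h6
    have h8 : L ^ U ≤ (1 + L) ^ U := pow_le_pow_left₀ hL0.le (by linarith) U
    have h9 : L ^ U * (2 * (|K| * K₁)) ≤ K₁ * Real.exp (c * L ^ β) := by
      calc L ^ U * (2 * (|K| * K₁)) ≤ (1 + L) ^ U * (1 + L) :=
            mul_le_mul h8 (by linarith) (by positivity) (by positivity)
        _ ≤ _ := h6
    have h10 : 0 < K₁ := by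
      by_contra hcon
      have : K₁ = 0 := le_antisymm (not_lt.1 hcon) hK₁
      rw [this, zero_mul] at h6
      have : 0 < (1 + L) ^ U * (1 + L) := by positivity
      linarith
    have h11 : 2 * |K| * L ^ U ≤ Real.exp (c * L ^ β) := by
      have : K₁ * (2 * |K| * L ^ U) ≤ K₁ * Real.exp (c * L ^ β) := by linarith
      exact le_of_mul_le_mul_left this h10
    have h12 : 2 * |K| * L ^ U * Real.exp (-(c * L ^ β)) ≤ 1 := by
      rw [Real.exp_neg, ← div_eq_mul_inv, div_le_one (Real.exp_pos _)]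
      exact h11
    have h13 : K * X * Real.exp (-(c * L ^ β)) ≤ |K| * X * Real.exp (-(c * L ^ β)) := by
      have : K * X ≤ |K| * X := mul_le_mul_of_nonneg_right (le_abs_self K) hX0.le
      exact mul_le_mul_of_nonneg_right this (Real.exp_pos _).le
    refine h13.trans ?_
    rw [← mul_div_assoc, le_div_iff₀ hLU]
    have h14 := mul_le_mul_of_nonneg_left h12 hX0.le
    nlinarith
  linarith

/-- **All integers near generic linear forms.** If all `n ≤ x` but `K x exp (- c (log x) ^ β)` have the property `P`, then for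
almost all `α`, for all `w` and `B` and all but finitely many `i` ALL natural numbers `n` within
`w (1 + log (1 + ‖v i‖)) ^ B` of `∑ α_j v_(i,j)` have the property `P`. -/
theorem ae_nat {β : ℝ} (hβ : 0 < β) (P : ℕ → Prop)
    (h : ∃ c K : ℝ, 0 < c ∧ ∀ x : ℕ, 1 ≤ x →
      ({n : ℕ | 1 ≤ n ∧ n ≤ x ∧ ¬ P n}.ncard : ℝ) ≤ K * x * Real.exp (-(c * Real.log x ^ β)))
    {ι : Type} {k : ℕ} (v : ι → Fin k → ℝ) (hv : Slow v) :
    ∀ᵐ α : Fin k → ℝ, ∀ (w : ℝ) (B : ℕ),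
      {i | ¬ ∀ n : ℕ, |(n : ℝ) - ∑ j, α j * v i j| ≤ w * (1 + Real.log (1 + ‖v i‖)) ^ B → P n}.Finite := by
  refine ae_row (fun α : Fin k → ℝ => ∀ (w : ℝ) (B : ℕ),
      {i | ¬ ∀ n : ℕ, |(n : ℝ) - ∑ j, α j * v i j| ≤ w * (1 + Real.log (1 + ‖v i‖)) ^ B → P n}.Finite) ?_
  have h1 := ae_tuples (m := 1) {n | ¬ P n} (fun t _ => (t : ℝ)) (count_exp hβ P h) v hv
  filter_upwards [h1] with α hα w B
  refine (hα w B).subset ?_
  intro i hi
  simp only [Set.mem_ofPred_eq] at hi ⊢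
  push Not at hi
  obtain ⟨n, h2, h3⟩ := hi
  refine ⟨n, h3, fun l => ?_⟩
  have : l = 0 := Subsingleton.elim _ _
  rw [this]
  exact h2

end Pool.Agent.N251.LF
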