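import Pool.Agent.N251.LF.Ae

/-!
# Almost all vectors, slow families and counts (tools for `Pool.Agent.N251.LF.Ae`)
-/

set_option autoImplicit false

open MeasureTheory Filter Finset

namespace Pool.Agent.N251.LF

/-- almost all `1 × k` matrices are almost all vectors -/
theorem ae_row {k : ℕ} (Q : (Fin k → ℝ) → Prop) (h : ∀ᵐ α : Fin 1 × Fin k → ℝ, Q (fun j => α (0, j))) :
    ∀ᵐ β : Fin k → ℝ, Q β := by
  set e : Fin k ≃ Fin 1 × Fin k := ⟨fun j => (0, j), fun p => p.2, fun j => rfl, fun p => by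
    ext
    · simp
    · rfl⟩ with he
  have h1 := (volume_measurePreserving_piCongrLeft (fun _ : Fin 1 × Fin k => ℝ) e).quasiMeasurePreserving.ae h
  filter_upwards [h1] with β hβ
  have h2 : (fun j => (MeasurableEquiv.piCongrLeft (fun _ : Fin 1 × Fin k => ℝ) e) β (0, j)) = β := by
    funext j
    exact MeasurableEquiv.piCongrLeft_apply_apply (β := fun _ : Fin 1 × Fin k => ℝ) e β j
  rwa [h2] at hβ

lemma prod_summable {k : ℕ} (f : Fin k → ℕ → ℝ) (h0 : ∀ j n, 0 ≤ f j n) (hf : ∀ j, Summable (f j)) :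
    Summable fun n : Fin k → ℕ => ∏ j, f j (n j) := by
  classical
  refine summable_of_sum_le (c := ∏ j, ∑' n, f j n) (fun n => prod_nonneg fun j _ => h0 j _) fun s => ?_
  obtain ⟨N, hN⟩ : ∃ N : ℕ, ∀ n ∈ s, ∀ j, n j < N := by
    refine ⟨s.sup (fun n => univ.sup n) + 1, fun n hn j => Nat.lt_succ_of_le ?_⟩
    exact (le_sup (f := n) (mem_univ j)).trans (le_sup (f := fun n : Fin k → ℕ => univ.sup n) hn)
  calc ∑ n ∈ s, ∏ j, f j (n j) ≤ ∑ n ∈ Fintype.piFinset (fun _ : Fin k => range N), ∏ j, f j (n j) := by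
        refine sum_le_sum_of_subset_of_nonneg (fun n hn => Fintype.mem_piFinset.2 fun j => mem_range.2 (hN n hn j)) ?_
        exact fun n _ _ => prod_nonneg fun j _ => h0 j _
    _ = ∏ j, ∑ n ∈ range N, f j n := (prod_univ_sum (fun _ : Fin k => range N) (fun j n => f j n)).symm
    _ ≤ ∏ j, ∑' n, f j n := prod_le_prod (fun j _ => sum_nonneg fun n _ => h0 j n)
        fun j _ => (hf j).sum_le_tsum _ fun n _ => h0 j n

/-- `log |u n|` grows at least like a power of `n` -/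
def Fast (u : ℕ → ℝ) : Prop := ∃ a c : ℝ, 0 < a ∧ 0 < c ∧ ∀ n : ℕ, c * ((n : ℝ) + 1) ^ a ≤ 1 + Real.log (1 + |u n|)

theorem fast_pow {b : ℝ} (hb : 1 < b) : Fast (fun n => b ^ n) := by
  refine ⟨1, min 1 (Real.log b), one_pos, lt_min one_pos (Real.log_pos hb), fun n => ?_⟩
  have h1 : (0 : ℝ) < b ^ n := by positivity
  have h2 : Real.log (b ^ n) ≤ Real.log (1 + |b ^ n|) := Real.log_le_log h1 (by rw [abs_of_pos h1]; linarith)
  rw [Real.log_pow] at h2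
  rw [Real.rpow_one]
  have h3 : min 1 (Real.log b) * n ≤ n * Real.log b := by
    rw [mul_comm]
    exact mul_le_mul_of_nonneg_left (min_le_right _ _) (Nat.cast_nonneg n)
  have h4 := min_le_left 1 (Real.log b)
  linarith

theorem fast_exp {a : ℝ} (ha : 0 < a) : Fast (fun n => Real.exp ((n : ℝ) ^ a)) := by
  refine ⟨a, 1 / 2 ^ a, ha, by positivity, fun n => ?_⟩
  have h1 : (n : ℝ) ^ a ≤ Real.log (1 + |Real.exp ((n : ℝ) ^ a)|) := by
    rw [abs_of_pos (Real.exp_pos _)]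
    calc (n : ℝ) ^ a = Real.log (Real.exp ((n : ℝ) ^ a)) := (Real.log_exp _).symm
      _ ≤ _ := Real.log_le_log (Real.exp_pos _) (by linarith)
  rw [div_mul_eq_mul_div, one_mul, div_le_iff₀ (by positivity)]
  rcases Nat.eq_zero_or_pos n with h0 | h0
  · have h2 : (1 : ℝ) ≤ 2 ^ a := Real.one_le_rpow (by norm_num) ha.le
    have h3 : 0 ≤ Real.log (1 + |Real.exp ((n : ℝ) ^ a)|) :=
      Real.log_nonneg (by linarith [abs_nonneg (Real.exp ((n : ℝ) ^ a))])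
    have h4 : ((n : ℝ) + 1) ^ a = 1 := by
      rw [h0, Nat.cast_zero, zero_add, Real.one_rpow]
    rw [h4]
    nlinarith
  · have h2 : (1 : ℝ) ≤ n := by exact_mod_cast h0
    have h3 : ((n : ℝ) + 1) ^ a ≤ (2 * n) ^ a := Real.rpow_le_rpow (by positivity) (by linarith) ha.le
    rw [Real.mul_rpow (by norm_num) (by positivity)] at h3
    have h4 : (0 : ℝ) < 2 ^ a := by positivity
    nlinarith

theorem slow_prod {k : ℕ} (u : Fin k → ℕ → ℝ) (hu : ∀ j, Fast (u j)) :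
    Slow (fun (n : Fin k → ℕ) (j : Fin k) => u j (n j)) := by
  rcases Nat.eq_zero_or_pos k with hk | hk
  · subst hk
    exact ⟨0, (hasSum_fintype _).summable⟩
  choose a c ha hc h using hu
  obtain ⟨a₀, ha₀, ha1⟩ : ∃ a₀ : ℝ, 0 < a₀ ∧ ∀ j, a₀ ≤ a j := by
    have : Nonempty (Fin k) := ⟨⟨0, hk⟩⟩
    obtain ⟨j, hj⟩ := Finite.exists_min a
    exact ⟨a j, ha j, hj⟩
  obtain ⟨c₀, hc₀, hc1⟩ : ∃ c₀ : ℝ, 0 < c₀ ∧ ∀ j, c₀ ≤ c j := by
    have : Nonempty (Fin k) := ⟨⟨0, hk⟩⟩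
    obtain ⟨j, hj⟩ := Finite.exists_min c
    exact ⟨c j, hc j, hj⟩
  obtain ⟨q, hq⟩ := exists_nat_ge (2 / a₀)
  refine ⟨q * k, ?_⟩
  have hs : Summable fun n : Fin k → ℕ => (1 / c₀ ^ (q * k)) * ∏ j : Fin k, 1 / ((n j : ℝ) + 1) ^ (2 : ℝ) := by
    refine (prod_summable (fun _ n => 1 / ((n : ℝ) + 1) ^ (2 : ℝ)) (fun j n => by positivity) fun j => ?_).mul_left _
    have h1 := (Real.summable_one_div_nat_rpow (p := 2)).2 (by norm_num)
    have h2 := (summable_nat_add_iff 1).2 h1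
    simpa using h2
  refine Summable.of_nonneg_of_le (fun n => ?_) (fun n => ?_) hs
  · have := Real.log_nonneg (show (1 : ℝ) ≤ 1 + ‖(fun j => u j (n j))‖ by
      linarith [norm_nonneg (fun j => u j (n j))])
    positivity
  · obtain ⟨L, hL⟩ : ∃ L : ℝ, L = 1 + Real.log (1 + ‖(fun j => u j (n j))‖) := ⟨_, rfl⟩
    rw [← hL]
    have h1 : ∀ j, c₀ * ((n j : ℝ) + 1) ^ a₀ ≤ L := by
      intro j
      have h2 := h j (n j)
      have h3 : |u j (n j)| ≤ ‖(fun j => u j (n j))‖ := norm_le_pi_norm (fun j => u j (n j)) j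
      have h4 : Real.log (1 + |u j (n j)|) ≤ Real.log (1 + ‖(fun j => u j (n j))‖) :=
        Real.log_le_log (by positivity) (by linarith)
      have h5 : ((n j : ℝ) + 1) ^ a₀ ≤ ((n j : ℝ) + 1) ^ a j :=
        Real.rpow_le_rpow_of_exponent_le (by have := Nat.cast_nonneg (α := ℝ) (n j); linarith) (ha1 j)
      calc c₀ * ((n j : ℝ) + 1) ^ a₀ ≤ c j * ((n j : ℝ) + 1) ^ a j :=
            mul_le_mul (hc1 j) h5 (by positivity) (hc j).le
        _ ≤ L := by rw [hL]; linarith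
    have h6 : ∏ j : Fin k, (c₀ ^ q * ((n j : ℝ) + 1) ^ (2 : ℝ)) ≤ ∏ _j : Fin k, L ^ q := by
      refine prod_le_prod (fun j _ => by positivity) fun j _ => ?_
      calc c₀ ^ q * ((n j : ℝ) + 1) ^ (2 : ℝ) ≤ c₀ ^ q * ((n j : ℝ) + 1) ^ (a₀ * q) := by
            refine mul_le_mul_of_nonneg_left (Real.rpow_le_rpow_of_exponent_le
              (by have := Nat.cast_nonneg (α := ℝ) (n j); linarith) ?_) (by positivity)
            rw [div_le_iff₀ ha₀] at hq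
            linarith
        _ = (c₀ * ((n j : ℝ) + 1) ^ a₀) ^ q := by
            rw [mul_pow, ← Real.rpow_natCast (((n j : ℝ) + 1) ^ a₀), ← Real.rpow_mul (by positivity)]
        _ ≤ L ^ q := pow_le_pow_left₀ (by positivity) (h1 j) q
    rw [prod_const, card_univ, Fintype.card_fin, ← pow_mul, prod_mul_distrib, prod_const, card_univ,
      Fintype.card_fin, ← pow_mul] at h6
    have h7 : 0 < c₀ ^ (q * k) * ∏ j : Fin k, ((n j : ℝ) + 1) ^ (2 : ℝ) := by positivity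
    refine (one_div_le_one_div_of_le h7 h6).trans (le_of_eq ?_)
    rw [prod_div_distrib, prod_const_one]
    field_simp

/-- counts up to real `X` from counts up to natural numbers -/
theorem count_gen {T : Type} {m : ℕ} (S : Set T) (h : T → Fin m → ℕ)
    (hS : ∀ U : ℕ, ∃ X₀ : ℕ, ∀ X : ℕ, X₀ ≤ X → {t | t ∈ S ∧ ∀ l, h t l ≤ X}.Finite ∧
      (({t | t ∈ S ∧ ∀ l, h t l ≤ X}.ncard : ℕ) : ℝ) ≤ (X : ℝ) ^ m / Real.log X ^ U) :
    ∀ U : ℕ, ∃ C X₀ : ℝ, ∀ X : ℝ, X₀ ≤ X → {t | t ∈ S ∧ ∀ l, |((h t l : ℕ) : ℝ)| ≤ X}.Finite ∧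
      (({t | t ∈ S ∧ ∀ l, |((h t l : ℕ) : ℝ)| ≤ X}.ncard : ℕ) : ℝ) ≤ C * X ^ m / Real.log X ^ U := by
  intro U
  obtain ⟨X₀, hX₀⟩ := hS U
  refine ⟨2 ^ U, max ((X₀ : ℝ) + 1) 4, fun X hX => ?_⟩
  have hX1 : (X₀ : ℝ) + 1 ≤ X := (le_max_left _ _).trans hX
  have hX4 : 4 ≤ X := (le_max_right _ _).trans hX
  have hset : {t | t ∈ S ∧ ∀ l, |((h t l : ℕ) : ℝ)| ≤ X} = {t | t ∈ S ∧ ∀ l, h t l ≤ ⌊X⌋₊} := by
    ext t
    refine and_congr_right fun _ => forall_congr' fun l => ?_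
    rw [abs_of_nonneg (Nat.cast_nonneg _)]
    exact (Nat.le_floor_iff (by linarith)).symm
  rw [hset]
  obtain ⟨hfin, h1⟩ := hX₀ ⌊X⌋₊ (Nat.le_floor (by linarith))
  refine ⟨hfin, h1.trans ?_⟩
  have h2 : X / 2 ≤ (⌊X⌋₊ : ℝ) := by
    have := Nat.sub_one_lt_floor X
    linarith
  have h3 : (⌊X⌋₊ : ℝ) ≤ X := Nat.floor_le (by linarith)
  have h4 : Real.log X / 2 ≤ Real.log (⌊X⌋₊ : ℝ) := by
    have h5 : Real.log (X / 2) ≤ Real.log (⌊X⌋₊ : ℝ) := Real.log_le_log (by linarith) h2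
    rw [Real.log_div (by linarith) (by norm_num)] at h5
    have h6 : Real.log 4 ≤ Real.log X := Real.log_le_log (by norm_num) hX4
    have h7 : Real.log 4 = 2 * Real.log 2 := by
      rw [show (4 : ℝ) = 2 ^ 2 by norm_num, Real.log_pow]
      norm_num
    linarith
  have h5 : 0 < Real.log X := Real.log_pos (by linarith)
  calc (⌊X⌋₊ : ℝ) ^ m / Real.log (⌊X⌋₊ : ℝ) ^ U ≤ X ^ m / (Real.log X / 2) ^ U :=
        div_le_div₀ (by positivity) (pow_le_pow_left₀ (Nat.cast_nonneg _) h3 m) (by positivity)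
          (pow_le_pow_left₀ (by positivity) h4 U)
    _ = 2 ^ U * X ^ m / Real.log X ^ U := by
        rw [div_pow]
        field_simp

/-- the examples of families -/
theorem slow_examples :
    (∀ (k : ℕ) (u : Fin k → ℕ → ℝ), (∀ j, Fast (u j)) → Slow (fun (n : Fin k → ℕ) (j : Fin k) => u j (n j))) ∧
    (∀ b : ℝ, 1 < b → Fast (fun n => b ^ n)) ∧
    ∀ a : ℝ, 0 < a → Fast (fun n => Real.exp ((n : ℝ) ^ a)) :=
  ⟨fun _ u hu => slow_prod u hu, fun _ hb => fast_pow hb, fun _ ha => fast_exp ha⟩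

end Pool.Agent.N251.LF
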