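import Pool.Agent.N251.LF.Slab

/-!
# Windows around the values of generic linear forms at the vectors of a thin family
-/

set_option autoImplicit false

namespace Pool.Agent.N251.LF

open Finset Classical

/-- the family `v` of vectors has at most `C X ^ (τ + ε)` members of norm at most `X` -/
def Fam {k : ℕ} {ι : Type} (v : ι → Fin k → ℝ) (τ : ℝ) : Prop :=
  ∀ ε : ℝ, 0 < ε → ∃ C : ℝ, ∀ X : ℝ, 1 ≤ X →
    {i | ‖v i‖ ≤ X}.Finite ∧ (({i | ‖v i‖ ≤ X}.ncard : ℕ) : ℝ) ≤ C * X ^ (τ + ε)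

/-- the sequence `u` has at most `C X ^ (τ + ε)` members of absolute value at most `X` -/
def Sq (u : ℕ → ℝ) (τ : ℝ) : Prop :=
  ∀ ε : ℝ, 0 < ε → ∃ C : ℝ, ∀ X : ℝ, 1 ≤ X →
    {n | |u n| ≤ X}.Finite ∧ (({n | |u n| ≤ X}.ncard : ℕ) : ℝ) ≤ C * X ^ (τ + ε)

lemma countable_of_levels {κ : Type} (H : κ → ℝ) (h : ∀ X : ℝ, 1 ≤ X → {i | H i ≤ X}.Finite) : Countable κ := by
  rw [← Set.countable_univ_iff]
  have : (Set.univ : Set κ) = ⋃ n : ℕ, {i | H i ≤ (n : ℝ) + 1} := by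
    refine (Set.eq_univ_of_forall fun i => ?_).symm
    obtain ⟨n, hn⟩ := exists_nat_ge (H i)
    rw [Set.mem_iUnion]
    exact ⟨n, by show H i ≤ (n : ℝ) + 1; linarith⟩
  rw [this]
  refine Set.countable_iUnion fun n => (h _ ?_).countable
  have : (0 : ℝ) ≤ (n : ℝ) := Nat.cast_nonneg n
  linarith

lemma norm_eq {k : ℕ} {w : Fin k → ℝ} {j0 : Fin k} (h : ∀ j, |w j| ≤ |w j0|) : ‖w‖ = |w j0| :=
  le_antisymm ((pi_norm_le_iff_of_nonneg (abs_nonneg _)).2 h) (norm_le_pi_norm w j0)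

/-- **Main tool.** Let `S` have `O_ε (X ^ (s + ε))` elements of height at most `X`, and let the family `v` of vectors in
`ℝ ^ k` have `O_ε (X ^ (τ + ε))` members of norm at most `X`. For all `α` in `ℝ ^ k` outside a set of dimension at most
`k - 1 + (s + τ) / (1 - θ)` and all `c`, for all but finitely many `i` no element of `S` has a height within `c ‖v i‖ ^ θ` of
`∑ α_j v_(i,j)`. -/
theorem linear_windows {T ι : Type} {k : ℕ} (S : Set T) (h : T → ℝ) (v : ι → Fin k → ℝ) {s τ θ : ℝ} (hs : 0 ≤ s)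
    (hτ : 0 ≤ τ) (hθ : θ < 1) (hv : Fam v τ)
    (hS : ∀ ε : ℝ, 0 < ε → ∃ C : ℝ, ∀ X : ℝ, 1 ≤ X →
      {t | t ∈ S ∧ h t ≤ X}.Finite ∧ ({t | t ∈ S ∧ h t ≤ X}.ncard : ℝ) ≤ C * X ^ (s + ε)) :
    ∃ E : Set (Fin k → ℝ), dimH E ≤ ENNReal.ofReal ((k : ℝ) - 1 + (s + τ) / (1 - θ)) ∧
      ∀ α, α ∉ E → ∀ c : ℝ, {i | ∃ t ∈ S, |h t - ∑ j, α j * v i j| ≤ c * ‖v i‖ ^ θ}.Finite := by
  set κ : Fin k → ℕ → ℕ → Type := fun j0 R c => {p : ι × T // p.2 ∈ S ∧ 1 ≤ |v p.1 j0| ∧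
    (∀ j, |v p.1 j| ≤ |v p.1 j0|) ∧ h p.2 ≤ ((k : ℝ) * R + c) * |v p.1 j0|} with hκ
  have hcount : ∀ (j0 : Fin k) (R c : ℕ), ∀ ε : ℝ, 0 < ε → ∃ C : ℝ, ∀ X : ℝ, 1 ≤ X →
      {p : κ j0 R c | |v p.1.1 j0| ≤ X}.Finite ∧
      (({p : κ j0 R c | |v p.1.1 j0| ≤ X}.ncard : ℕ) : ℝ) ≤ C * X ^ (s + τ + ε) := by
    intro j0 R c ε hε
    obtain ⟨C₁, hC₁⟩ := hv (ε / 2) (by positivity)
    obtain ⟨C₂, hC₂⟩ := hS (ε / 2) (by positivity)
    obtain ⟨A, hA⟩ : ∃ A : ℝ, A = (k : ℝ) * R + c + 1 := ⟨_, rfl⟩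
    have hA1 : 1 ≤ A := by
      have z1 : (0 : ℝ) ≤ (k : ℝ) * R := by positivity
      have z2 : (0 : ℝ) ≤ (c : ℝ) := by positivity
      rw [hA]
      linarith
    refine ⟨|C₁| * (|C₂| * A ^ (s + ε / 2)), fun X hX => ?_⟩
    have hX0 : (0 : ℝ) < X := by linarith
    have hAX : 1 ≤ A * X := one_le_mul_of_one_le_of_one_le hA1 hX
    obtain ⟨f1, g1⟩ := hC₁ X hX
    obtain ⟨f2, g2⟩ := hC₂ (A * X) hAX
    have hmaps : Set.MapsTo (Subtype.val : κ j0 R c → ι × T) {p | |v p.1.1 j0| ≤ X}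
        ({i | ‖v i‖ ≤ X} ×ˢ {t | t ∈ S ∧ h t ≤ A * X}) := by
      rintro ⟨⟨i, t⟩, h1, h2, h3, h4⟩ h5
      refine ⟨?_, h1, ?_⟩
      · show ‖v i‖ ≤ X
        rw [norm_eq h3]
        exact h5
      · show h t ≤ A * X
        have h5' : |v i j0| ≤ X := h5
        have hk0 : (0 : ℝ) ≤ (k : ℝ) * R + c := by positivity
        calc h t ≤ ((k : ℝ) * R + c) * |v i j0| := h4
          _ ≤ ((k : ℝ) * R + c) * X := by gcongr
          _ ≤ A * X := by rw [hA]; nlinarith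
    have hinj : Set.InjOn (Subtype.val : κ j0 R c → ι × T) {p | |v p.1.1 j0| ≤ X} := Subtype.val_injective.injOn
    have hfin : {p : κ j0 R c | |v p.1.1 j0| ≤ X}.Finite := (f1.prod f2).of_injOn hmaps hinj
    refine ⟨hfin, ?_⟩
    have h3 := Set.ncard_le_ncard_of_injOn _ hmaps hinj (f1.prod f2)
    rw [Set.ncard_prod] at h3
    have e1 : (({i | ‖v i‖ ≤ X}.ncard : ℕ) : ℝ) ≤ |C₁| * X ^ (τ + ε / 2) :=
      g1.trans (mul_le_mul_of_nonneg_right (le_abs_self _) (by positivity))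
    have e2 : (({t | t ∈ S ∧ h t ≤ A * X}.ncard : ℕ) : ℝ) ≤ |C₂| * (A * X) ^ (s + ε / 2) :=
      g2.trans (mul_le_mul_of_nonneg_right (le_abs_self _) (by positivity))
    calc (({p : κ j0 R c | |v p.1.1 j0| ≤ X}.ncard : ℕ) : ℝ)
        ≤ (({i | ‖v i‖ ≤ X}.ncard : ℕ) : ℝ) * (({t | t ∈ S ∧ h t ≤ A * X}.ncard : ℕ) : ℝ) := by exact_mod_cast h3
      _ ≤ (|C₁| * X ^ (τ + ε / 2)) * (|C₂| * (A * X) ^ (s + ε / 2)) := by gcongr
      _ = |C₁| * (|C₂| * A ^ (s + ε / 2)) * X ^ (s + τ + ε) := by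
          rw [Real.mul_rpow (by linarith) hX0.le, show s + τ + ε = (τ + ε / 2) + (s + ε / 2) by ring,
            Real.rpow_add hX0 (τ + ε / 2)]
          ring
  have hcore : ∀ (j0 : Fin k) (R c : ℕ), dimH {α : Fin k → ℝ | ‖α‖ ≤ R ∧ {p : κ j0 R c |
      |∑ j, α j * v p.1.1 j - h p.1.2| ≤ c * |v p.1.1 j0| ^ θ}.Infinite} ≤
      ENNReal.ofReal ((k : ℝ) - 1 + (s + τ) / (1 - θ)) := by
    intro j0 R c
    haveI : Countable (κ j0 R c) := countable_of_levels (fun p : κ j0 R c => |v p.1.1 j0|) (fun X hX => by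
      obtain ⟨C, hC⟩ := hcount j0 R c 1 one_pos
      exact (hC X hX).1)
    exact slab_core j0 (fun p : κ j0 R c => v p.1.1) (fun p => h p.1.2) (fun p => p.2.2.1) (fun p => p.2.2.2.1)
      (add_nonneg hs hτ) hθ (hcount j0 R c) R c
  refine ⟨⋃ (j0 : Fin k) (R : ℕ) (c : ℕ), {α : Fin k → ℝ | ‖α‖ ≤ R ∧ {p : κ j0 R c |
      |∑ j, α j * v p.1.1 j - h p.1.2| ≤ c * |v p.1.1 j0| ^ θ}.Infinite}, ?_, fun α hα c => ?_⟩
  · rw [dimH_iUnion]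
    refine iSup_le fun j0 => ?_
    rw [dimH_iUnion]
    refine iSup_le fun R => ?_
    rw [dimH_iUnion]
    exact iSup_le fun c => hcore j0 R c
  · by_contra hcon
    change {i | ∃ t ∈ S, |h t - ∑ j, α j * v i j| ≤ c * ‖v i‖ ^ θ}.Infinite at hcon
    obtain ⟨C₀, hC₀⟩ := hv 1 one_pos
    have h1 := hcon.diff (hC₀ 1 le_rfl).1
    have h2 : {i | ∃ t ∈ S, |h t - ∑ j, α j * v i j| ≤ c * ‖v i‖ ^ θ} \ {i | ‖v i‖ ≤ 1} ⊆
        ⋃ j0 : Fin k, {i | (∃ t ∈ S, |h t - ∑ j, α j * v i j| ≤ c * ‖v i‖ ^ θ) ∧ 1 ≤ |v i j0| ∧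
          ∀ j, |v i j| ≤ |v i j0|} := by
      rintro i ⟨h3, h4⟩
      have h4' : 1 < ‖v i‖ := not_le.1 h4
      have hne : Nonempty (Fin k) := by
        by_contra hemp
        rw [not_nonempty_iff] at hemp
        have : ‖v i‖ ≤ 0 := (pi_norm_le_iff_of_nonneg le_rfl).2 fun j => (hemp.false j).elim
        linarith
      obtain ⟨j0, hj0⟩ := Finite.exists_max (fun j => |v i j|)
      rw [Set.mem_iUnion]
      refine ⟨j0, h3, ?_, hj0⟩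
      rw [← norm_eq hj0]
      exact h4'.le
    have h3 : ∃ j0 : Fin k, {i | (∃ t ∈ S, |h t - ∑ j, α j * v i j| ≤ c * ‖v i‖ ^ θ) ∧ 1 ≤ |v i j0| ∧
          ∀ j, |v i j| ≤ |v i j0|}.Infinite := by
      by_contra hcon2
      push Not at hcon2
      exact (h1.mono h2) (Set.finite_iUnion fun j0 => hcon2 j0)
    obtain ⟨j0, hj0⟩ := h3
    obtain ⟨R, hR⟩ := exists_nat_ge ‖α‖
    obtain ⟨c', hc'⟩ := exists_nat_ge c
    apply hα
    refine Set.mem_iUnion.2 ⟨j0, Set.mem_iUnion.2 ⟨R, Set.mem_iUnion.2 ⟨c', hR, ?_⟩⟩⟩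
    intro hfin
    apply hj0
    refine (hfin.image (fun p : κ j0 R c' => p.1.1)).subset ?_
    rintro i ⟨⟨t, ht, h4⟩, h5, h6⟩
    have e0 : (0 : ℝ) < |v i j0| := by linarith
    have e1 : |h t - ∑ j, α j * v i j| ≤ c' * |v i j0| ^ θ := by
      rw [norm_eq h6] at h4
      refine h4.trans ?_
      gcongr
    have e2 : |v i j0| ^ θ ≤ |v i j0| := by
      calc |v i j0| ^ θ ≤ |v i j0| ^ (1 : ℝ) := Real.rpow_le_rpow_of_exponent_le h5 hθ.le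
        _ = |v i j0| := Real.rpow_one _
    have e3 : |∑ j, α j * v i j| ≤ (k : ℝ) * (R * |v i j0|) := by
      refine (Finset.abs_sum_le_sum_abs _ _).trans ?_
      have : ∀ j ∈ (univ : Finset (Fin k)), |α j * v i j| ≤ R * |v i j0| := by
        intro j _
        rw [abs_mul]
        exact mul_le_mul ((norm_le_pi_norm α j).trans hR) (h6 j) (abs_nonneg _) (Nat.cast_nonneg R)
      refine (Finset.sum_le_sum this).trans ?_
      rw [Finset.sum_const, Finset.card_univ, Fintype.card_fin, nsmul_eq_mul]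
    have e4 : h t ≤ ((k : ℝ) * R + c') * |v i j0| := by
      have a1 := (abs_le.1 e1).2
      have a2 := (abs_le.1 e3).2
      have a3 : (c' : ℝ) * |v i j0| ^ θ ≤ c' * |v i j0| := by gcongr
      nlinarith
    refine ⟨⟨(i, t), ht, h5, h6, e4⟩, ?_, rfl⟩
    show |∑ j, α j * v i j - h t| ≤ c' * |v i j0| ^ θ
    rw [abs_sub_comm]
    exact e1

/-- objects `t` which are admissible are good if their height is near a value of the linear form -/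
theorem linear_good {T ι : Type} {k : ℕ} (Adm Good : T → Prop) (h : T → ℝ) (v : ι → Fin k → ℝ) {s τ θ : ℝ} (hs : 0 ≤ s)
    (hτ : 0 ≤ τ) (hθ : θ < 1) (hv : Fam v τ)
    (hS : ∀ ε : ℝ, 0 < ε → ∃ C : ℝ, ∀ X : ℝ, 1 ≤ X →
      {t | (Adm t ∧ ¬ Good t) ∧ h t ≤ X}.Finite ∧ ({t | (Adm t ∧ ¬ Good t) ∧ h t ≤ X}.ncard : ℝ) ≤ C * X ^ (s + ε)) :
    ∃ E : Set (Fin k → ℝ), dimH E ≤ ENNReal.ofReal ((k : ℝ) - 1 + (s + τ) / (1 - θ)) ∧
      ∀ α, α ∉ E → ∀ c : ℝ, {i | ¬ ∀ t, Adm t → |h t - ∑ j, α j * v i j| ≤ c * ‖v i‖ ^ θ → Good t}.Finite := by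
  obtain ⟨E, hE, hE2⟩ := linear_windows {t | Adm t ∧ ¬ Good t} h v hs hτ hθ hv hS
  refine ⟨E, hE, fun α hα c => (hE2 α hα c).subset ?_⟩
  intro i hi
  simp only [Set.mem_ofPred_eq] at hi ⊢
  push Not at hi
  obtain ⟨t, h1, h2, h3⟩ := hi
  exact ⟨t, ⟨h1, h3⟩, h2⟩

/-- the count of positive integers in a form with filters gives the count of `linear_windows` -/
lemma count_nat (P : Set ℕ) {s : ℝ} (hs : 0 ≤ s)
    (hP : ∀ ε : ℝ, 0 < ε → ∃ C : ℝ, ∀ X : ℕ, 1 ≤ X →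
      (((Ioc 0 X).filter (fun t => t ∈ P)).card : ℝ) ≤ C * (X : ℝ) ^ (s + ε)) :
    ∀ ε : ℝ, 0 < ε → ∃ C : ℝ, ∀ X : ℝ, 1 ≤ X →
      {t | t ∈ {t : ℕ | t = 0 ∨ t ∈ P} ∧ ((t : ℕ) : ℝ) ≤ X}.Finite ∧
        ({t | t ∈ {t : ℕ | t = 0 ∨ t ∈ P} ∧ ((t : ℕ) : ℝ) ≤ X}.ncard : ℝ) ≤ C * X ^ (s + ε) := by
  intro ε hε
  obtain ⟨C, hC⟩ := hP ε hε
  refine ⟨|C| + 1, fun X hX => ?_⟩
  have hX1 : 1 ≤ ⌊X⌋₊ := Nat.le_floor (by exact_mod_cast hX)
  have hsub : {t : ℕ | t ∈ {t : ℕ | t = 0 ∨ t ∈ P} ∧ (t : ℝ) ≤ X} ⊆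
      (((Ioc 0 ⌊X⌋₊).filter (fun t => t ∈ P) ∪ {0} : Finset ℕ) : Set ℕ) := by
    rintro t ⟨ht, htX⟩
    have htf : t ≤ ⌊X⌋₊ := Nat.le_floor htX
    rw [coe_union, coe_singleton]
    rcases Nat.eq_zero_or_pos t with h0 | h0
    · right
      exact h0
    · left
      rw [coe_filter]
      refine ⟨mem_Ioc.2 ⟨h0, htf⟩, ?_⟩
      rcases ht with ht | ht
      · omega
      · exact ht
  have hfin := (Finset.finite_toSet ((Ioc 0 ⌊X⌋₊).filter (fun t => t ∈ P) ∪ {0} : Finset ℕ)).subset hsub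
  refine ⟨hfin, ?_⟩
  have h1 := Set.ncard_le_ncard hsub (Finset.finite_toSet _)
  rw [Set.ncard_coe_finset] at h1
  have h2 := h1.trans (card_union_le _ _)
  rw [card_singleton] at h2
  have h3 := hC ⌊X⌋₊ hX1
  have hXf : (⌊X⌋₊ : ℝ) ≤ X := Nat.floor_le (by linarith)
  have h4 : (1 : ℝ) ≤ X ^ (s + ε) := Real.one_le_rpow hX (by linarith)
  calc (({t : ℕ | t ∈ {t : ℕ | t = 0 ∨ t ∈ P} ∧ (t : ℝ) ≤ X}.ncard : ℕ) : ℝ)
      ≤ (((Ioc 0 ⌊X⌋₊).filter (fun t => t ∈ P)).card : ℝ) + 1 := by exact_mod_cast h2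
    _ ≤ |C| * X ^ (s + ε) + X ^ (s + ε) := by
        refine add_le_add ?_ h4
        calc (((Ioc 0 ⌊X⌋₊).filter (fun t => t ∈ P)).card : ℝ) ≤ C * (⌊X⌋₊ : ℝ) ^ (s + ε) := h3
          _ ≤ |C| * (⌊X⌋₊ : ℝ) ^ (s + ε) := mul_le_mul_of_nonneg_right (le_abs_self C) (by positivity)
          _ ≤ |C| * X ^ (s + ε) := by gcongr
    _ = (|C| + 1) * X ^ (s + ε) := by ring

/-- the tool for a set of positive integers (and `0`) -/
theorem linear_win_nat {ι : Type} {k : ℕ} (P : Set ℕ) (v : ι → Fin k → ℝ) {s τ θ : ℝ} (hs : 0 ≤ s)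
    (hτ : 0 ≤ τ) (hθ : θ < 1) (hv : Fam v τ)
    (hP : ∀ ε : ℝ, 0 < ε → ∃ C : ℝ, ∀ X : ℕ, 1 ≤ X →
      (((Ioc 0 X).filter (fun t => t ∈ P)).card : ℝ) ≤ C * (X : ℝ) ^ (s + ε)) :
    ∃ E : Set (Fin k → ℝ), dimH E ≤ ENNReal.ofReal ((k : ℝ) - 1 + (s + τ) / (1 - θ)) ∧
      ∀ α, α ∉ E → ∀ c : ℝ,
        {i | ∃ n : ℕ, (n = 0 ∨ n ∈ P) ∧ |(n : ℝ) - ∑ j, α j * v i j| ≤ c * ‖v i‖ ^ θ}.Finite :=
  linear_windows {t : ℕ | t = 0 ∨ t ∈ P} (fun t : ℕ => (t : ℝ)) v hs hτ hθ hv (count_nat P hs hP)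

/-- admissible positive integers are good if they are near a value of the linear form; the count is that of
`keep_good_nat` (TG) -/
theorem linear_good_nat {ι : Type} {k : ℕ} (Adm Good : ℕ → Prop) (v : ι → Fin k → ℝ) {s τ θ : ℝ} (hs : 0 ≤ s)
    (hτ : 0 ≤ τ) (hθ : θ < 1) (hv : Fam v τ)
    (hP : ∀ ε : ℝ, 0 < ε → ∃ C : ℝ, ∀ X : ℕ, 1 ≤ X →
      (({t : ℕ | 1 ≤ t ∧ t ≤ X ∧ Adm t ∧ ¬ Good t}.ncard : ℕ) : ℝ) ≤ C * (X : ℝ) ^ (s + ε)) :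
    ∃ E : Set (Fin k → ℝ), dimH E ≤ ENNReal.ofReal ((k : ℝ) - 1 + (s + τ) / (1 - θ)) ∧
      ∀ α, α ∉ E → ∀ c : ℝ,
        {i | ¬ ∀ n : ℕ, 1 ≤ n → Adm n → |(n : ℝ) - ∑ j, α j * v i j| ≤ c * ‖v i‖ ^ θ → Good n}.Finite := by
  obtain ⟨E, hE, hE2⟩ := linear_win_nat {t : ℕ | Adm t ∧ ¬ Good t} v hs hτ hθ hv (by
    intro ε hε
    obtain ⟨C, hC⟩ := hP ε hε
    refine ⟨C, fun X hX => le_trans (le_of_eq ?_) (hC X hX)⟩
    congr 1
    rw [← Set.ncard_coe_finset]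
    congr 1
    ext t
    simp only [coe_filter, mem_Ioc, Set.mem_ofPred_eq]
    constructor
    · rintro ⟨⟨h1, h2⟩, h3, h4⟩
      exact ⟨h1, h2, h3, h4⟩
    · rintro ⟨h1, h2, h3, h4⟩
      exact ⟨⟨h1, h2⟩, h3, h4⟩)
  refine ⟨E, hE, fun α hα c => (hE2 α hα c).subset ?_⟩
  intro i hi
  simp only [Set.mem_ofPred_eq] at hi ⊢
  push Not at hi
  obtain ⟨t, h0, h1, h2, h3⟩ := hi
  exact ⟨t, Or.inr ⟨h1, h3⟩, h2⟩

/-- **Polynomials.** The vectors `(1, n, …, n ^ d)` are a family of exponent `1 / d`. -/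
theorem fam_poly {d : ℕ} (hd : 1 ≤ d) : Fam (fun (n : ℕ) (j : Fin (d + 1)) => (n : ℝ) ^ (j : ℕ)) (1 / d) := by
  intro ε hε
  refine ⟨2, fun X hX => ?_⟩
  have hd0 : (0 : ℝ) < d := by exact_mod_cast hd
  have hX0 : (0 : ℝ) < X := by linarith
  have hroot : (1 : ℝ) ≤ X ^ ((1 : ℝ) / d) := Real.one_le_rpow hX (by positivity)
  have hsub : {n : ℕ | ‖(fun (j : Fin (d + 1)) => (n : ℝ) ^ (j : ℕ))‖ ≤ X} ⊆
      ((Finset.range (⌊X ^ ((1 : ℝ) / d)⌋₊ + 1) : Finset ℕ) : Set ℕ) := by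
    intro n hn
    have h1 : ((n : ℝ)) ^ d ≤ X := by
      have h2 := norm_le_pi_norm (fun (j : Fin (d + 1)) => (n : ℝ) ^ (j : ℕ)) (Fin.last d)
      have h3 : ‖(n : ℝ) ^ ((Fin.last d : Fin (d + 1)) : ℕ)‖ = (n : ℝ) ^ d := by
        rw [Fin.val_last, Real.norm_of_nonneg (by positivity)]
      rw [h3] at h2
      exact h2.trans hn
    have h4 : (n : ℝ) ≤ X ^ ((1 : ℝ) / d) := by
      have h5 : (n : ℝ) = ((n : ℝ) ^ d) ^ ((1 : ℝ) / d) := by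
        rw [← Real.rpow_natCast, ← Real.rpow_mul (Nat.cast_nonneg n), mul_one_div_cancel hd0.ne', Real.rpow_one]
      rw [h5]
      exact Real.rpow_le_rpow (by positivity) h1 (by positivity)
    rw [Finset.mem_coe, Finset.mem_range]
    have := Nat.le_floor h4
    omega
  have hfin := (Finset.finite_toSet _).subset hsub
  refine ⟨hfin, ?_⟩
  have h1 := Set.ncard_le_ncard hsub (Finset.finite_toSet _)
  rw [Set.ncard_coe_finset, Finset.card_range] at h1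
  have h2 : ((⌊X ^ ((1 : ℝ) / d)⌋₊ : ℕ) : ℝ) ≤ X ^ ((1 : ℝ) / d) := Nat.floor_le (by positivity)
  have h3 : X ^ ((1 : ℝ) / d) ≤ X ^ ((1 : ℝ) / d + ε) := Real.rpow_le_rpow_of_exponent_le hX (by linarith)
  calc (({n : ℕ | ‖(fun (j : Fin (d + 1)) => (n : ℝ) ^ (j : ℕ))‖ ≤ X}.ncard : ℕ) : ℝ)
      ≤ (⌊X ^ ((1 : ℝ) / d)⌋₊ : ℝ) + 1 := by exact_mod_cast h1
    _ ≤ 2 * X ^ ((1 : ℝ) / d + ε) := by linarith

/-- **Products.** If `k` sequences have exponents `τ_j`, then the vectors `(u_1 (n_1), …, u_k (n_k))`, for all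
`n_1, …, n_k`, are a family of exponent `∑ τ_j`. -/
theorem fam_prod {k : ℕ} (u : Fin k → ℕ → ℝ) (τ : Fin k → ℝ) (hu : ∀ j, Sq (u j) (τ j)) :
    Fam (fun (n : Fin k → ℕ) (j : Fin k) => u j (n j)) (∑ j, τ j) := by
  intro ε hε
  rcases Nat.eq_zero_or_pos k with hk | hk
  · subst hk
    refine ⟨1, fun X hX => ⟨Set.toFinite _, ?_⟩⟩
    have h1 : ({n : Fin 0 → ℕ | ‖(fun j : Fin 0 => u j (n j))‖ ≤ X}.ncard : ℕ) ≤ 1 :=
      Set.ncard_le_one_of_subsingleton _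
    have h2 : (1 : ℝ) ≤ X ^ (∑ j : Fin 0, τ j + ε) := Real.one_le_rpow hX (by simp; exact hε.le)
    have h3 : (({n : Fin 0 → ℕ | ‖(fun j : Fin 0 => u j (n j))‖ ≤ X}.ncard : ℕ) : ℝ) ≤ 1 := by exact_mod_cast h1
    linarith
  have hk0 : (0 : ℝ) < k := by exact_mod_cast hk
  choose C hC using fun j => hu j (ε / k) (by positivity)
  refine ⟨∏ j, |C j|, fun X hX => ?_⟩
  have hX0 : (0 : ℝ) < X := by linarith
  have hset : {n : Fin k → ℕ | ‖(fun j : Fin k => u j (n j))‖ ≤ X} ⊆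
      ((Fintype.piFinset (fun j => (hC j X hX).1.toFinset) : Finset (Fin k → ℕ)) : Set (Fin k → ℕ)) := by
    intro n hn
    rw [Finset.mem_coe, Fintype.mem_piFinset]
    intro j
    rw [Set.Finite.mem_toFinset]
    exact (norm_le_pi_norm (fun j : Fin k => u j (n j)) j).trans hn
  refine ⟨(Finset.finite_toSet _).subset hset, ?_⟩
  have h1 := Set.ncard_le_ncard hset (Finset.finite_toSet _)
  rw [Set.ncard_coe_finset, Fintype.card_piFinset] at h1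
  calc (({n : Fin k → ℕ | ‖(fun j : Fin k => u j (n j))‖ ≤ X}.ncard : ℕ) : ℝ)
      ≤ ∏ j, ((hC j X hX).1.toFinset.card : ℝ) := by exact_mod_cast h1
    _ ≤ ∏ j, (|C j| * X ^ (τ j + ε / k)) := by
        apply Finset.prod_le_prod (fun j _ => Nat.cast_nonneg _)
        intro j _
        rw [← Set.ncard_eq_toFinset_card _ (hC j X hX).1]
        exact (hC j X hX).2.trans (mul_le_mul_of_nonneg_right (le_abs_self _) (by positivity))
    _ = (∏ j, |C j|) * X ^ (∑ j, τ j + ε) := by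
        rw [Finset.prod_mul_distrib, ← Real.rpow_sum_of_pos hX0, Finset.sum_add_distrib, Finset.sum_const,
          Finset.card_univ, Fintype.card_fin, nsmul_eq_mul, mul_div_cancel₀ _ hk0.ne']

/-- the powers `b ^ n`, `b > 1`, have exponent `0` -/
theorem sq_pow {b : ℝ} (hb : 1 < b) : Sq (fun n => b ^ n) 0 := by
  intro ε hε
  have hlb : 0 < Real.log b := Real.log_pos hb
  refine ⟨1 / (ε * Real.log b) + 1, fun X hX => ?_⟩
  have hX0 : (0 : ℝ) < X := by linarith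
  have hlX : 0 ≤ Real.log X := Real.log_nonneg hX
  have hsub : {n : ℕ | |b ^ n| ≤ X} ⊆ ((Finset.range (⌊Real.log X / Real.log b⌋₊ + 1) : Finset ℕ) : Set ℕ) := by
    intro n hn
    have h1 : b ^ n ≤ X := (le_abs_self _).trans hn
    have h2 : (n : ℝ) * Real.log b ≤ Real.log X := by
      rw [← Real.log_pow]
      exact Real.log_le_log (by positivity) h1
    have h3 : (n : ℝ) ≤ Real.log X / Real.log b := by
      rw [le_div_iff₀ hlb]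
      exact h2
    rw [Finset.mem_coe, Finset.mem_range]
    have := Nat.le_floor h3
    omega
  have hfin := (Finset.finite_toSet _).subset hsub
  refine ⟨hfin, ?_⟩
  have h1 := Set.ncard_le_ncard hsub (Finset.finite_toSet _)
  rw [Set.ncard_coe_finset, Finset.card_range] at h1
  have h2 : ((⌊Real.log X / Real.log b⌋₊ : ℕ) : ℝ) ≤ Real.log X / Real.log b := Nat.floor_le (by positivity)
  have h3 : Real.log X ≤ X ^ ε / ε := Real.log_le_rpow_div hX0.le hε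
  have h4 : (1 : ℝ) ≤ X ^ ε := Real.one_le_rpow hX hε.le
  rw [zero_add]
  calc (({n : ℕ | |b ^ n| ≤ X}.ncard : ℕ) : ℝ) ≤ (⌊Real.log X / Real.log b⌋₊ : ℝ) + 1 := by exact_mod_cast h1
    _ ≤ X ^ ε / ε / Real.log b + X ^ ε := by
        refine add_le_add (h2.trans ?_) h4
        gcongr
    _ = (1 / (ε * Real.log b) + 1) * X ^ ε := by
        field_simp

/-- the powers `n ^ a` with a fixed real exponent `a > 0` have exponent `1 / a` -/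
theorem sq_rpow {a : ℝ} (ha : 0 < a) : Sq (fun n => (n : ℝ) ^ a) (1 / a) := by
  intro ε hε
  refine ⟨2, fun X hX => ?_⟩
  have hX0 : (0 : ℝ) < X := by linarith
  have hroot : (1 : ℝ) ≤ X ^ (1 / a) := Real.one_le_rpow hX (by positivity)
  have hsub : {n : ℕ | |(n : ℝ) ^ a| ≤ X} ⊆ ((Finset.range (⌊X ^ (1 / a)⌋₊ + 1) : Finset ℕ) : Set ℕ) := by
    intro n hn
    have h1 : (n : ℝ) ^ a ≤ X := (le_abs_self _).trans hn
    have h4 : (n : ℝ) ≤ X ^ (1 / a) := by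
      have h5 : (n : ℝ) = ((n : ℝ) ^ a) ^ (1 / a) := by
        rw [← Real.rpow_mul (Nat.cast_nonneg n), mul_one_div_cancel ha.ne', Real.rpow_one]
      rw [h5]
      exact Real.rpow_le_rpow (by positivity) h1 (by positivity)
    rw [Finset.mem_coe, Finset.mem_range]
    have := Nat.le_floor h4
    omega
  have hfin := (Finset.finite_toSet _).subset hsub
  refine ⟨hfin, ?_⟩
  have h1 := Set.ncard_le_ncard hsub (Finset.finite_toSet _)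
  rw [Set.ncard_coe_finset, Finset.card_range] at h1
  have h2 : ((⌊X ^ (1 / a)⌋₊ : ℕ) : ℝ) ≤ X ^ (1 / a) := Nat.floor_le (by positivity)
  have h3 : X ^ (1 / a) ≤ X ^ (1 / a + ε) := Real.rpow_le_rpow_of_exponent_le hX (by linarith)
  calc (({n : ℕ | |(n : ℝ) ^ a| ≤ X}.ncard : ℕ) : ℝ) ≤ (⌊X ^ (1 / a)⌋₊ : ℝ) + 1 := by exact_mod_cast h1
    _ ≤ 2 * X ^ (1 / a + ε) := by linarith

/-- examples of families: (1) the vectors `(1, n, …, n ^ d)`, (2) the vectors `(b_1 ^ n_1, …, b_k ^ n_k)`, (3) the vectors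
`(n_1 ^ a_1, …, n_k ^ a_k)`, (4) the vectors `(u_1 (n_1), …, u_k (n_k))` for arbitrary sequences -/
theorem examples :
    (∀ d : ℕ, 1 ≤ d → Fam (fun (n : ℕ) (j : Fin (d + 1)) => (n : ℝ) ^ (j : ℕ)) (1 / d)) ∧
    (∀ (k : ℕ) (b : Fin k → ℝ), (∀ j, 1 < b j) → Fam (fun (n : Fin k → ℕ) (j : Fin k) => b j ^ n j) 0) ∧
    (∀ (k : ℕ) (a : Fin k → ℝ), (∀ j, 0 < a j) →
      Fam (fun (n : Fin k → ℕ) (j : Fin k) => (n j : ℝ) ^ a j) (∑ j, 1 / a j)) ∧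
    ∀ (k : ℕ) (u : Fin k → ℕ → ℝ) (τ : Fin k → ℝ), (∀ j, Sq (u j) (τ j)) →
      Fam (fun (n : Fin k → ℕ) (j : Fin k) => u j (n j)) (∑ j, τ j) := by
  refine ⟨fun d hd => fam_poly hd, fun k b hb => ?_, fun k a ha => ?_, fun k u τ hu => fam_prod u τ hu⟩
  · have h := fam_prod (fun (j : Fin k) n => b j ^ n) (fun _ => 0) (fun j => sq_pow (hb j))
    simpa using h
  · exact fam_prod (fun (j : Fin k) n => (n : ℝ) ^ a j) (fun j => 1 / a j) (fun j => sq_rpow (ha j))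

end Pool.Agent.N251.LF
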