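import Pool.Agent.N251.LF.Slabs
import Pool.Agent.N251.LF.Win
import Pool.Agent.N671.DA.Tup

/-!
# Windows around the values of generic systems of linear forms at the vectors of a thin family
-/

set_option autoImplicit false

namespace Pool.Agent.N251.LF

open Finset Classical

/-- **Main tool for tuples.** Let `S` have `O_ε (X ^ (s + ε))` elements with all coordinates of `h` at most `X` in absolute
value, and let the family `v` of vectors in `ℝ ^ k` have `O_ε (X ^ (τ + ε))` members of norm at most `X`. For all `m × k`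
matrices `α` outside a set of dimension at most `m (k - 1) + (s + τ) / (1 - θ)` and all `c`, for all but finitely many `i`
no element of `S` has all coordinates of `h` within `c ‖v i‖ ^ θ` of those of `α v_i`. -/
theorem tuple_windows {T ι : Type} {m k : ℕ} (S : Set T) (h : T → Fin m → ℝ) (v : ι → Fin k → ℝ) {s τ θ : ℝ}
    (hs : 0 ≤ s) (hτ : 0 ≤ τ) (hθ : θ < 1) (hv : Fam v τ)
    (hS : ∀ ε : ℝ, 0 < ε → ∃ C : ℝ, ∀ X : ℝ, 1 ≤ X →
      {t | t ∈ S ∧ ∀ l, |h t l| ≤ X}.Finite ∧ ({t | t ∈ S ∧ ∀ l, |h t l| ≤ X}.ncard : ℝ) ≤ C * X ^ (s + ε)) :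
    ∃ E : Set (Fin m × Fin k → ℝ), dimH E ≤ ENNReal.ofReal ((m : ℝ) * ((k : ℝ) - 1) + (s + τ) / (1 - θ)) ∧
      ∀ α, α ∉ E → ∀ c : ℝ,
        {i | ∃ t ∈ S, ∀ l, |h t l - ∑ j, α (l, j) * v i j| ≤ c * ‖v i‖ ^ θ}.Finite := by
  set κ : Fin k → ℕ → ℕ → Type := fun j0 R c => {p : ι × T // p.2 ∈ S ∧ 1 ≤ |v p.1 j0| ∧
    (∀ j, |v p.1 j| ≤ |v p.1 j0|) ∧ ∀ l, |h p.2 l| ≤ ((k : ℝ) * R + c) * |v p.1 j0|} with hκ
  have hcount : ∀ (j0 : Fin k) (R c : ℕ), ∀ ε : ℝ, 0 < ε → ∃ C : ℝ, ∀ X : ℝ, 1 ≤ X →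
      {p : κ j0 R c | |v p.1.1 j0| ≤ X}.Finite ∧
      (({p : κ j0 R c | |v p.1.1 j0| ≤ X}.ncard : ℕ) : ℝ) ≤ C * X ^ (s + τ + ε) := by
    intro j0 R c ε hε
    obtain ⟨C₁, hC₁⟩ := hv (ε / 2) (by positivity)
    obtain ⟨C₂, hC₂⟩ := hS (ε / 2) (by positivity)
    obtain ⟨A, hA⟩ : ∃ A : ℝ, A = (k : ℝ) * R + c + 1 := ⟨_, rfl⟩
    have hA1 : 1 ≤ A := by
      have z1 : (0 : ℝ) ≤ (k : ℝ) * R := by positivity
      have z2 : (0 : ℝ) ≤ (c : ℝ) := by positivity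
      rw [hA]
      linarith
    refine ⟨|C₁| * (|C₂| * A ^ (s + ε / 2)), fun X hX => ?_⟩
    have hX0 : (0 : ℝ) < X := by linarith
    have hAX : 1 ≤ A * X := one_le_mul_of_one_le_of_one_le hA1 hX
    obtain ⟨f1, g1⟩ := hC₁ X hX
    obtain ⟨f2, g2⟩ := hC₂ (A * X) hAX
    have hmaps : Set.MapsTo (Subtype.val : κ j0 R c → ι × T) {p | |v p.1.1 j0| ≤ X}
        ({i | ‖v i‖ ≤ X} ×ˢ {t | t ∈ S ∧ ∀ l, |h t l| ≤ A * X}) := by
      rintro ⟨⟨i, t⟩, h1, h2, h3, h4⟩ h5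
      refine ⟨?_, h1, fun l => ?_⟩
      · show ‖v i‖ ≤ X
        rw [norm_eq h3]
        exact h5
      · show |h t l| ≤ A * X
        have h5' : |v i j0| ≤ X := h5
        have hk0 : (0 : ℝ) ≤ (k : ℝ) * R + c := by positivity
        calc |h t l| ≤ ((k : ℝ) * R + c) * |v i j0| := h4 l
          _ ≤ ((k : ℝ) * R + c) * X := by gcongr
          _ ≤ A * X := by rw [hA]; nlinarith
    have hinj : Set.InjOn (Subtype.val : κ j0 R c → ι × T) {p | |v p.1.1 j0| ≤ X} := Subtype.val_injective.injOn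
    have hfin : {p : κ j0 R c | |v p.1.1 j0| ≤ X}.Finite := (f1.prod f2).of_injOn hmaps hinj
    refine ⟨hfin, ?_⟩
    have h3 := Set.ncard_le_ncard_of_injOn _ hmaps hinj (f1.prod f2)
    rw [Set.ncard_prod] at h3
    have e1 : (({i | ‖v i‖ ≤ X}.ncard : ℕ) : ℝ) ≤ |C₁| * X ^ (τ + ε / 2) :=
      g1.trans (mul_le_mul_of_nonneg_right (le_abs_self _) (by positivity))
    have e2 : (({t | t ∈ S ∧ ∀ l, |h t l| ≤ A * X}.ncard : ℕ) : ℝ) ≤ |C₂| * (A * X) ^ (s + ε / 2) :=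
      g2.trans (mul_le_mul_of_nonneg_right (le_abs_self _) (by positivity))
    calc (({p : κ j0 R c | |v p.1.1 j0| ≤ X}.ncard : ℕ) : ℝ)
        ≤ (({i | ‖v i‖ ≤ X}.ncard : ℕ) : ℝ) * (({t | t ∈ S ∧ ∀ l, |h t l| ≤ A * X}.ncard : ℕ) : ℝ) := by
          exact_mod_cast h3
      _ ≤ (|C₁| * X ^ (τ + ε / 2)) * (|C₂| * (A * X) ^ (s + ε / 2)) := by gcongr
      _ = |C₁| * (|C₂| * A ^ (s + ε / 2)) * X ^ (s + τ + ε) := by
          rw [Real.mul_rpow (by linarith) hX0.le, show s + τ + ε = (τ + ε / 2) + (s + ε / 2) by ring,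
            Real.rpow_add hX0 (τ + ε / 2)]
          ring
  have hcore : ∀ (j0 : Fin k) (R c : ℕ), dimH {α : Fin m × Fin k → ℝ | ‖α‖ ≤ R ∧ {p : κ j0 R c |
      ∀ l, |∑ j, α (l, j) * v p.1.1 j - h p.1.2 l| ≤ c * |v p.1.1 j0| ^ θ}.Infinite} ≤
      ENNReal.ofReal ((m : ℝ) * ((k : ℝ) - 1) + (s + τ) / (1 - θ)) := by
    intro j0 R c
    haveI : Countable (κ j0 R c) := countable_of_levels (fun p : κ j0 R c => |v p.1.1 j0|) (fun X hX => by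
      obtain ⟨C, hC⟩ := hcount j0 R c 1 one_pos
      exact (hC X hX).1)
    exact slabs_core j0 (fun p : κ j0 R c => v p.1.1) (fun p => h p.1.2) (fun p => p.2.2.1) (fun p => p.2.2.2.1)
      (add_nonneg hs hτ) hθ (hcount j0 R c) R c
  refine ⟨⋃ (j0 : Fin k) (R : ℕ) (c : ℕ), {α : Fin m × Fin k → ℝ | ‖α‖ ≤ R ∧ {p : κ j0 R c |
      ∀ l, |∑ j, α (l, j) * v p.1.1 j - h p.1.2 l| ≤ c * |v p.1.1 j0| ^ θ}.Infinite}, ?_, fun α hα c => ?_⟩
  · rw [dimH_iUnion]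
    refine iSup_le fun j0 => ?_
    rw [dimH_iUnion]
    refine iSup_le fun R => ?_
    rw [dimH_iUnion]
    exact iSup_le fun c => hcore j0 R c
  · by_contra hcon
    change {i | ∃ t ∈ S, ∀ l, |h t l - ∑ j, α (l, j) * v i j| ≤ c * ‖v i‖ ^ θ}.Infinite at hcon
    obtain ⟨C₀, hC₀⟩ := hv 1 one_pos
    have h1 := hcon.diff (hC₀ 1 le_rfl).1
    have h2 : {i | ∃ t ∈ S, ∀ l, |h t l - ∑ j, α (l, j) * v i j| ≤ c * ‖v i‖ ^ θ} \ {i | ‖v i‖ ≤ 1} ⊆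
        ⋃ j0 : Fin k, {i | (∃ t ∈ S, ∀ l, |h t l - ∑ j, α (l, j) * v i j| ≤ c * ‖v i‖ ^ θ) ∧ 1 ≤ |v i j0| ∧
          ∀ j, |v i j| ≤ |v i j0|} := by
      rintro i ⟨h3, h4⟩
      have h4' : 1 < ‖v i‖ := not_le.1 h4
      have hne : Nonempty (Fin k) := by
        by_contra hemp
        rw [not_nonempty_iff] at hemp
        have : ‖v i‖ ≤ 0 := (pi_norm_le_iff_of_nonneg le_rfl).2 fun j => (hemp.false j).elim
        linarith
      obtain ⟨j0, hj0⟩ := Finite.exists_max (fun j => |v i j|)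
      rw [Set.mem_iUnion]
      refine ⟨j0, h3, ?_, hj0⟩
      rw [← norm_eq hj0]
      exact h4'.le
    have h3 : ∃ j0 : Fin k, {i | (∃ t ∈ S, ∀ l, |h t l - ∑ j, α (l, j) * v i j| ≤ c * ‖v i‖ ^ θ) ∧
          1 ≤ |v i j0| ∧ ∀ j, |v i j| ≤ |v i j0|}.Infinite := by
      by_contra hcon2
      push Not at hcon2
      exact (h1.mono h2) (Set.finite_iUnion fun j0 => hcon2 j0)
    obtain ⟨j0, hj0⟩ := h3
    obtain ⟨R, hR⟩ := exists_nat_ge ‖α‖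
    obtain ⟨c', hc'⟩ := exists_nat_ge c
    apply hα
    refine Set.mem_iUnion.2 ⟨j0, Set.mem_iUnion.2 ⟨R, Set.mem_iUnion.2 ⟨c', hR, ?_⟩⟩⟩
    intro hfin
    apply hj0
    refine (hfin.image (fun p : κ j0 R c' => p.1.1)).subset ?_
    rintro i ⟨⟨t, ht, h4⟩, h5, h6⟩
    have e0 : (0 : ℝ) < |v i j0| := by linarith
    have e1 : ∀ l, |h t l - ∑ j, α (l, j) * v i j| ≤ c' * |v i j0| ^ θ := by
      intro l
      have h4l := h4 l
      rw [norm_eq h6] at h4l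
      refine h4l.trans ?_
      gcongr
    have e2 : |v i j0| ^ θ ≤ |v i j0| := by
      calc |v i j0| ^ θ ≤ |v i j0| ^ (1 : ℝ) := Real.rpow_le_rpow_of_exponent_le h5 hθ.le
        _ = |v i j0| := Real.rpow_one _
    have e3 : ∀ l, |∑ j, α (l, j) * v i j| ≤ (k : ℝ) * (R * |v i j0|) := by
      intro l
      refine (Finset.abs_sum_le_sum_abs _ _).trans ?_
      have : ∀ j ∈ (univ : Finset (Fin k)), |α (l, j) * v i j| ≤ R * |v i j0| := by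
        intro j _
        rw [abs_mul]
        exact mul_le_mul ((norm_le_pi_norm α (l, j)).trans hR) (h6 j) (abs_nonneg _) (Nat.cast_nonneg R)
      refine (Finset.sum_le_sum this).trans ?_
      rw [Finset.sum_const, Finset.card_univ, Fintype.card_fin, nsmul_eq_mul]
    have e4 : ∀ l, |h t l| ≤ ((k : ℝ) * R + c') * |v i j0| := by
      intro l
      have a0 : h t l = (h t l - ∑ j, α (l, j) * v i j) + ∑ j, α (l, j) * v i j := by ring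
      have a1 := e1 l
      have a2 := e3 l
      have a3 : (c' : ℝ) * |v i j0| ^ θ ≤ c' * |v i j0| := by gcongr
      rw [a0]
      refine (abs_add_le _ _).trans ?_
      nlinarith
    refine ⟨⟨(i, t), ht, h5, h6, e4⟩, fun l => ?_, rfl⟩
    show |∑ j, α (l, j) * v i j - h t l| ≤ c' * |v i j0| ^ θ
    rw [abs_sub_comm]
    exact e1 l

/-- **Tool for tuples of natural numbers.** `W` has at most `C₀ T ^ (m - c₀)` elements with coordinates in `[2, T]`. For all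
`m × k` matrices `α` outside a set of dimension at most `m (k - 1) + (m - c₀ + τ) / (1 - θ)` and all `c`, for all but
finitely many `i` all integer vectors `q` within `c ‖v_i‖ ^ θ` of `α v_i` (in all coordinates) have `|q_l| ≥ 2` and
`(|q_1|, …, |q_m|) ∉ W`. -/
theorem tuple_nat {ι : Type} {m k : ℕ} (hm : 1 ≤ m) (W : Set (Fin m → ℕ)) {c₀ C₀ : ℝ} (hc1 : c₀ ≤ 1)
    (hW : ∀ T : ℕ, 1 ≤ T → (({w : Fin m → ℕ | (∀ i, 2 ≤ w i ∧ w i ≤ T) ∧ w ∈ W}.ncard : ℕ) : ℝ) ≤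
      C₀ * (T : ℝ) ^ ((m : ℝ) - c₀)) (v : ι → Fin k → ℝ) {τ θ : ℝ} (hτ : 0 ≤ τ) (hθ : θ < 1) (hv : Fam v τ) :
    ∃ E : Set (Fin m × Fin k → ℝ),
      dimH E ≤ ENNReal.ofReal ((m : ℝ) * ((k : ℝ) - 1) + ((m : ℝ) - c₀ + τ) / (1 - θ)) ∧
      ∀ α, α ∉ E → ∀ c : ℝ, {i | ¬ ∀ q : Fin m → ℤ, (∀ l, |(q l : ℝ) - ∑ j, α (l, j) * v i j| ≤ c * ‖v i‖ ^ θ) →
        (∀ l, 2 ≤ (q l).natAbs) ∧ (fun l => (q l).natAbs) ∉ W}.Finite := by
  have hm1 : (1 : ℝ) ≤ m := by exact_mod_cast hm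
  obtain ⟨E, hE, hE2⟩ := tuple_windows {q : Fin m → ℤ | ¬ ((∀ i, 2 ≤ (q i).natAbs) ∧ (fun i => (q i).natAbs) ∉ W)}
    (fun q l => (q l : ℝ)) v (s := (m : ℝ) - c₀) (by linarith) hτ hθ hv (fun ε hε => by
      obtain ⟨C, hC⟩ := Pool.Agent.N671.DA.thin_natAbs hm W hc1 hW ε hε
      refine ⟨C, fun X hX => ⟨?_, hC X hX⟩⟩
      exact (Pool.Agent.N671.DA.box_fin X).subset fun q hq => hq.2)
  refine ⟨E, hE, fun α hα c => (hE2 α hα c).subset ?_⟩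
  intro i hi
  simp only [Set.mem_ofPred_eq] at hi ⊢
  rw [not_forall] at hi
  obtain ⟨q, hq⟩ := hi
  rw [Classical.not_imp] at hq
  exact ⟨q, hq.2, hq.1⟩

end Pool.Agent.N251.LF
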