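import Pool.Agent.X174.DigitWin
import Pool.Agent.N251.LF.Tuples

/-!
# Tuples of natural numbers near the values of generic systems of linear forms, from thin families of binary numbers

`thin_digit`: a property which holds for most members of all families of tuples of numbers with a few changed binary digits
fails for a thin set of tuples only (after `Pool.Agent.X174.digitWin`).
-/

set_option autoImplicit false

open Finset

namespace Pool.Agent.N251.LF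

open Pool.Agent.X174 (box_of_thin)

/-- the tuples `m` for which `Good X m` fails for some `X` between the powers `κ` and `c / 4` of the largest coordinate -/
def Fails {d : ℕ} (Good : ℕ → (Fin d → ℕ) → Prop) (κ c : ℝ) : Set (Fin d → ℕ) :=
  {m | ¬ ∀ X : ℕ, ‖(fun l => (m l : ℝ))‖ ^ κ ≤ X → (X : ℝ) ≤ ‖(fun l => (m l : ℝ))‖ ^ (c / 4) → Good X m}

lemma log_pow_le {ε : ℝ} (hε : 0 < ε) (A : ℕ) : ∃ C : ℝ, 0 ≤ C ∧ ∀ T : ℝ, 1 ≤ T → (1 + Real.log T) ^ A ≤ C * T ^ ε := by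
  set ε' : ℝ := ε / (A + 1) with hε'
  have hε'0 : 0 < ε' := by positivity
  refine ⟨(1 + 1 / ε') ^ A, by positivity, fun T hT => ?_⟩
  have hTp : (0 : ℝ) < T := by linarith
  have hlog : 0 ≤ Real.log T := Real.log_nonneg hT
  have h3 : 1 + Real.log T ≤ (1 + 1 / ε') * T ^ ε' := by
    have h4 := Real.log_le_rpow_div hTp.le hε'0
    have h5 : 1 ≤ T ^ ε' := Real.one_le_rpow hT hε'0.le
    rw [div_eq_mul_one_div, mul_comm] at h4
    linarith
  calc (1 + Real.log T) ^ A ≤ ((1 + 1 / ε') * T ^ ε') ^ A := pow_le_pow_left₀ (by linarith) h3 A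
    _ = (1 + 1 / ε') ^ A * T ^ (ε' * A) := by rw [mul_pow, ← Real.rpow_natCast (T ^ ε'), ← Real.rpow_mul hTp.le]
    _ ≤ (1 + 1 / ε') ^ A * T ^ ε := by
        apply mul_le_mul_of_nonneg_left _ (by positivity)
        apply Real.rpow_le_rpow_of_exponent_le hT
        rw [hε', div_mul_eq_mul_div, div_le_iff₀ (by positivity)]
        nlinarith

/-- **A thin set of exceptions from thin families.** -/
theorem thin_digit {d : ℕ} {c : ℝ} (hc : 0 < c) (y₀ A : ℕ) (Good : ℕ → (Fin d → ℕ) → Prop)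
    (H : ∀ (K r : Fin d → ℕ) (y : ℕ), (∀ l, 2 * r l ≤ K l) → y₀ ≤ y → ∀ N : Fin d → ℕ, (∀ l, N l < 2 ^ K l) →
      ∀ f : Fin d → ℕ → ℕ, (∀ l j, f l j < 2 ∧ f l j ≠ N l / 2 ^ j % 2) →
      ∃ W : Finset (Fin d → Finset ℕ), (W.card : ℝ) ≤ 1 / (y : ℝ) ^ A * ∏ l, ((K l).choose (r l) : ℝ) ∧
        ∀ S ∈ Fintype.piFinset (fun l => powersetCard (r l) (range (K l))), S ∉ W →
          ∀ x : ℕ, y ≤ x → (∀ l, (x : ℝ) ≤ Real.exp (c * r l)) →
            Good x (fun l => ∑ i ∈ range (K l), (if i ∈ S l then f l i else N l / 2 ^ i % 2) * 2 ^ i))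
    {κ : ℝ} (hκ : 0 < κ) (hκA : κ * A ≤ d) (ε : ℝ) (hε : 0 < ε) :
    ∃ C : ℝ, ∀ X : ℝ, 1 ≤ X → {m | m ∈ Fails Good κ c ∧ ∀ l, |((m l : ℕ) : ℝ)| ≤ X}.Finite ∧
      (({m | m ∈ Fails Good κ c ∧ ∀ l, |((m l : ℕ) : ℝ)| ≤ X}.ncard : ℕ) : ℝ) ≤ C * X ^ ((d : ℝ) - κ * A + ε) := by
  classical
  -- the levels
  set lev : ℝ → ℕ := fun T => Nat.log 2 ⌈T⌉₊ + 1 with hlev
  set yy : ℝ → ℕ := fun T => max (max y₀ 1) ⌈T ^ κ / (1 + Real.log T)⌉₊ with hyy
  set Bad : ℝ → (Fin d → ℕ) → Prop := fun T m => ¬ ∀ x : ℕ, yy T ≤ x → (x : ℝ) ≤ Real.exp (c * (lev T / 2 : ℕ)) → Good x m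
    with hBad
  have hlev1 : ∀ T : ℝ, 1 ≤ T → T < (2 : ℝ) ^ lev T ∧ (2 : ℝ) ^ lev T ≤ 4 * T := by
    intro T hT
    have hTp : (0 : ℝ) < T := by linarith
    have hH1 : ⌈T⌉₊ ≠ 0 := (Nat.ceil_pos.2 hTp).ne'
    have h1 : ⌈T⌉₊ < 2 ^ lev T := Nat.lt_pow_succ_log_self one_lt_two _
    have h2 : 2 ^ Nat.log 2 ⌈T⌉₊ ≤ ⌈T⌉₊ := Nat.pow_log_le_self 2 hH1
    have h3 : (⌈T⌉₊ : ℝ) ≤ 2 * T := by
      have := Nat.ceil_lt_add_one hTp.le
      linarith
    constructor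
    · exact (Nat.le_ceil T).trans_lt (by exact_mod_cast h1)
    · have h4 : ((2 ^ Nat.log 2 ⌈T⌉₊ : ℕ) : ℝ) ≤ ⌈T⌉₊ := by exact_mod_cast h2
      push_cast at h4
      show (2 : ℝ) ^ (Nat.log 2 ⌈T⌉₊ + 1) ≤ 4 * T
      rw [pow_succ]
      linarith
  -- the count
  have hcount : ∀ T : ℝ, 1 ≤ T → (((Fintype.piFinset (fun _ : Fin d => range (2 ^ lev T))).filter (Bad T)).card : ℝ) ≤
      4 ^ d * (1 + Real.log T) ^ A * T ^ ((d : ℝ) - κ * A) := by
    intro T hT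
    have hTp : (0 : ℝ) < T := by linarith
    have hlog : 0 ≤ Real.log T := Real.log_nonneg hT
    have hy1 : T ^ κ / (1 + Real.log T) ≤ (yy T : ℝ) := (Nat.le_ceil _).trans (by exact_mod_cast le_max_right _ _)
    have hy0 : y₀ ≤ yy T := (le_max_left _ _).trans (le_max_left _ _)
    have h1 := box_of_thin (fun _ : Fin d => lev T) (fun _ => lev T / 2) (fun _ => Nat.div_le_self _ _) (Bad T)
      (1 / (yy T : ℝ) ^ A) (fun N hN => by
        obtain ⟨W, hW1, hW2⟩ := H (fun _ => lev T) (fun _ => lev T / 2) (yy T) (fun _ => Nat.mul_div_le _ _) hy0 N hN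
          (fun l j => 1 - N l / 2 ^ j % 2) (fun l j => by
            have := Nat.mod_lt (N l / 2 ^ j) two_pos
            omega)
        refine le_trans ?_ hW1
        have hsub : ((Fintype.piFinset (fun _ : Fin d => powersetCard (lev T / 2) (range (lev T)))).filter
            (fun S => Bad T (fun l => Pool.Agent.X174.flip (lev T) (S l) (N l)))) ⊆ W := by
          intro S hS
          rw [mem_filter] at hS
          by_contra hSW
          refine hS.2 fun x hx1 hx2 => ?_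
          exact hW2 S hS.1 hSW x hx1 fun _ => hx2
        exact_mod_cast card_le_card hsub)
    refine h1.trans ?_
    rw [prod_const, card_univ, Fintype.card_fin]
    have h2 : ((2 : ℝ) ^ lev T) ^ d ≤ (4 * T) ^ d := pow_le_pow_left₀ (by positivity) (hlev1 T hT).2 d
    have h3 : T ^ (κ * A) / (1 + Real.log T) ^ A ≤ (yy T : ℝ) ^ A := by
      calc T ^ (κ * A) / (1 + Real.log T) ^ A = (T ^ κ / (1 + Real.log T)) ^ A := by
            rw [div_pow, ← Real.rpow_natCast (T ^ κ), ← Real.rpow_mul hTp.le]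
        _ ≤ (yy T : ℝ) ^ A := pow_le_pow_left₀ (by positivity) hy1 A
    have h4 : 1 / (yy T : ℝ) ^ A ≤ (1 + Real.log T) ^ A * T ^ (-(κ * A)) := by
      refine (one_div_le_one_div_of_le (by positivity) h3).trans (le_of_eq ?_)
      rw [Real.rpow_neg hTp.le, one_div_div, div_eq_mul_inv]
    calc 1 / (yy T : ℝ) ^ A * ((2 : ℝ) ^ lev T) ^ d ≤ ((1 + Real.log T) ^ A * T ^ (-(κ * A))) * (4 * T) ^ d :=
          mul_le_mul h4 h2 (by positivity) (by positivity)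
      _ = 4 ^ d * (1 + Real.log T) ^ A * T ^ ((d : ℝ) - κ * A) := by
          rw [mul_pow, show (d : ℝ) - κ * A = d + (-(κ * A)) by ring, Real.rpow_add hTp, Real.rpow_natCast]
          ring
  have hs : 0 ≤ (d : ℝ) - κ * A := by linarith
  set Y : ℝ := ((max y₀ 1 : ℕ) : ℝ) with hY
  have hY1 : 1 ≤ Y := by
    rw [hY]
    exact_mod_cast le_max_right y₀ 1
  set B : ℝ := max (Real.exp 2) (max (Real.exp (2 * (2 : ℝ) ^ κ)) ((2 * Y) ^ (1 / κ))) with hB
  have hB1 : 1 ≤ B := (Real.one_le_exp (by norm_num)).trans (le_max_left _ _)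
  -- the failing tuples of height at least `B` are bad at their level
  have hkey : ∀ (m : Fin d → ℕ) (T : ℝ), m ∈ Fails Good κ c → B ≤ ‖(fun l => (m l : ℝ))‖ → ‖(fun l => (m l : ℝ))‖ ≤ T →
      T ≤ 2 * ‖(fun l => (m l : ℝ))‖ → m ∈ (Fintype.piFinset (fun _ : Fin d => range (2 ^ lev T))).filter (Bad T) := by
    intro m T hm hbig hmT hTm
    set V : ℝ := ‖(fun l => (m l : ℝ))‖ with hV
    have hV1 : 1 ≤ V := hB1.trans hbig
    have hV0 : 0 < V := by linarith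
    have hT1 : 1 ≤ T := hV1.trans hmT
    have hTp : 0 < T := by linarith
    have hbig1 : Real.exp 2 ≤ V := (le_max_left _ _).trans hbig
    have hbig2 : Real.exp (2 * (2 : ℝ) ^ κ) ≤ V := ((le_max_left _ _).trans (le_max_right _ _)).trans hbig
    have hbig3 : (2 * Y) ^ (1 / κ) ≤ V := ((le_max_right _ _).trans (le_max_right _ _)).trans hbig
    refine mem_filter.2 ⟨Fintype.mem_piFinset.2 fun l => mem_range.2 ?_, fun hgood => hm fun X hX1 hX2 => hgood X ?_ ?_⟩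
    · have h5 : (m l : ℝ) ≤ V := by
        have h6 := norm_le_pi_norm (fun l => (m l : ℝ)) l
        rw [Real.norm_eq_abs, abs_of_nonneg (Nat.cast_nonneg _)] at h6
        exact h6
      have h7 : (m l : ℝ) < (2 : ℝ) ^ lev T := (h5.trans hmT).trans_lt (hlev1 T hT1).1
      exact_mod_cast h7
    · -- `yy T ≤ X`
      have h7 : 2 * Y ≤ V ^ κ := by
        have h8 := Real.rpow_le_rpow (by positivity) hbig3 hκ.le
        rwa [← Real.rpow_mul (by positivity), show 1 / κ * κ = 1 by field_simp, Real.rpow_one] at h8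
      have h8 : 2 * (2 : ℝ) ^ κ ≤ 1 + Real.log T := by
        have h9 := (Real.log_le_log (Real.exp_pos _) (hbig2.trans hmT))
        rw [Real.log_exp] at h9
        linarith
      have hRk : 0 < (2 : ℝ) ^ κ := Real.rpow_pos_of_pos (by norm_num) _
      have hL : 0 < 1 + Real.log T := by linarith
      have h11 : T ^ κ ≤ (2 : ℝ) ^ κ * V ^ κ := by
        rw [← Real.mul_rpow (by positivity) hV0.le]
        exact Real.rpow_le_rpow hTp.le hTm hκ.le
      have hvk : 0 < V ^ κ := Real.rpow_pos_of_pos hV0 _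
      have h12 : (⌈T ^ κ / (1 + Real.log T)⌉₊ : ℝ) ≤ V ^ κ := by
        have h13 := Nat.ceil_lt_add_one (show (0 : ℝ) ≤ T ^ κ / (1 + Real.log T) by positivity)
        have h16 : T ^ κ / (1 + Real.log T) ≤ V ^ κ / 2 := by
          rw [div_le_iff₀ hL]
          nlinarith
        linarith
      have h13 : Y ≤ V ^ κ := by linarith
      have h14 : (yy T : ℝ) ≤ X := by
        refine le_trans ?_ hX1
        have h15 : ((max (max y₀ 1) ⌈T ^ κ / (1 + Real.log T)⌉₊ : ℕ) : ℝ) = max Y (⌈T ^ κ / (1 + Real.log T)⌉₊ : ℝ) := by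
          rw [Nat.cast_max]
        show ((max (max y₀ 1) ⌈T ^ κ / (1 + Real.log T)⌉₊ : ℕ) : ℝ) ≤ V ^ κ
        rw [h15]
        exact max_le h13 h12
      exact_mod_cast h14
    · -- `X ≤ exp (c r)`
      refine hX2.trans ?_
      rw [Real.rpow_def_of_pos hV0]
      apply Real.exp_le_exp.2
      have hlog : 2 ≤ Real.log V := by
        rw [← Real.log_exp 2]
        exact Real.log_le_log (Real.exp_pos _) hbig1
      have h7 : Real.log V ≤ lev T := by
        have h8 := Real.log_le_log hV0 (hmT.trans (hlev1 T hT1).1.le)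
        rw [Real.log_pow] at h8
        have h9 : Real.log 2 ≤ 1 := by
          have := Real.log_two_lt_d9
          linarith
        have h10 : (0 : ℝ) ≤ lev T := Nat.cast_nonneg _
        nlinarith
      have h8 : ((lev T : ℝ) - 1) / 2 ≤ ((lev T / 2 : ℕ) : ℝ) := by
        have h9 : lev T ≤ 2 * (lev T / 2) + 1 := by omega
        have h10 : (lev T : ℝ) ≤ 2 * ((lev T / 2 : ℕ) : ℝ) + 1 := by exact_mod_cast h9
        linarith
      have h9 : Real.log V / 4 ≤ ((lev T / 2 : ℕ) : ℝ) := by linarith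
      calc Real.log V * (c / 4) = c * (Real.log V / 4) := by ring
        _ ≤ c * ((lev T / 2 : ℕ) : ℝ) := mul_le_mul_of_nonneg_left h9 hc.le
  obtain ⟨C₁, hC₁, hlogp⟩ := log_pow_le hε (A + 1)
  obtain ⟨b, hb⟩ := exists_nat_ge B
  refine ⟨((b : ℝ) + 1) ^ d + 2 * (4 ^ d * C₁ * 2 ^ ((d : ℝ) - κ * A + ε)), fun X hX => ?_⟩
  have hX0 : (0 : ℝ) < X := by linarith
  obtain ⟨J, hJ1, hJ2⟩ := exists_nat_pow_near hX (show (1 : ℝ) < 2 by norm_num)
  set U : Finset (Fin d → ℕ) := Fintype.piFinset (fun _ : Fin d => range (b + 1)) ∪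
    (range (J + 1)).biUnion (fun j => (Fintype.piFinset (fun _ : Fin d => range (2 ^ lev ((2 : ℝ) ^ (j + 1))))).filter
      (Bad ((2 : ℝ) ^ (j + 1)))) with hU
  have hsub : {m | m ∈ Fails Good κ c ∧ ∀ l, |((m l : ℕ) : ℝ)| ≤ X} ⊆ (U : Set (Fin d → ℕ)) := by
    rintro m ⟨hm, hmX⟩
    rw [mem_coe, hU, mem_union]
    have hVX : ‖(fun l => (m l : ℝ))‖ ≤ X := (pi_norm_le_iff_of_nonneg hX0.le).2 fun l => by
      rw [Real.norm_eq_abs]
      exact hmX l
    rcases le_total B ‖(fun l => (m l : ℝ))‖ with h1 | h1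
    · right
      obtain ⟨j, h2, h3⟩ := exists_nat_pow_near (hB1.trans h1) (show (1 : ℝ) < 2 by norm_num)
      have h5 : j < J + 1 := (pow_lt_pow_iff_right₀ (show (1 : ℝ) < 2 by norm_num)).1 (h2.trans_lt (hVX.trans_lt hJ2))
      refine mem_biUnion.2 ⟨j, mem_range.2 h5, hkey m _ hm h1 h3.le ?_⟩
      rw [pow_succ]
      linarith
    · left
      refine Fintype.mem_piFinset.2 fun l => mem_range.2 ?_
      have h6 := norm_le_pi_norm (fun l => (m l : ℝ)) l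
      rw [Real.norm_eq_abs, abs_of_nonneg (Nat.cast_nonneg _)] at h6
      have h7 : (m l : ℝ) ≤ b := h6.trans (h1.trans hb)
      have h8 : m l ≤ b := by exact_mod_cast h7
      omega
  refine ⟨(Finset.finite_toSet U).subset hsub, ?_⟩
  have h1 : {m | m ∈ Fails Good κ c ∧ ∀ l, |((m l : ℕ) : ℝ)| ≤ X}.ncard ≤ U.card := by
    have := Set.ncard_le_ncard hsub (Finset.finite_toSet U)
    rwa [Set.ncard_coe_finset] at this
  have h2 : (U.card : ℝ) ≤ ((b : ℝ) + 1) ^ d + ∑ j ∈ range (J + 1),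
      (((Fintype.piFinset (fun _ : Fin d => range (2 ^ lev ((2 : ℝ) ^ (j + 1))))).filter
        (Bad ((2 : ℝ) ^ (j + 1)))).card : ℝ) := by
    have h3 : U.card ≤ (b + 1) ^ d + ∑ j ∈ range (J + 1),
        ((Fintype.piFinset (fun _ : Fin d => range (2 ^ lev ((2 : ℝ) ^ (j + 1))))).filter
          (Bad ((2 : ℝ) ^ (j + 1)))).card := by
      refine (card_union_le _ _).trans (Nat.add_le_add ?_ card_biUnion_le)
      rw [Fintype.card_piFinset]
      simp
    exact_mod_cast h3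
  have hterm : ∀ j ∈ range (J + 1), (((Fintype.piFinset (fun _ : Fin d => range (2 ^ lev ((2 : ℝ) ^ (j + 1))))).filter
        (Bad ((2 : ℝ) ^ (j + 1)))).card : ℝ) ≤ 4 ^ d * (1 + Real.log (2 * X)) ^ A * (2 * X) ^ ((d : ℝ) - κ * A) := by
    intro j hj
    have hT1 : (1 : ℝ) ≤ (2 : ℝ) ^ (j + 1) := one_le_pow₀ (by norm_num)
    have hT2 : (2 : ℝ) ^ (j + 1) ≤ 2 * X := by
      rw [pow_succ]
      have : (2 : ℝ) ^ j ≤ 2 ^ J := pow_le_pow_right₀ (by norm_num) (by have := mem_range.1 hj; omega)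
      linarith
    refine (hcount _ hT1).trans ?_
    have hl0 : 0 ≤ Real.log ((2 : ℝ) ^ (j + 1)) := Real.log_nonneg hT1
    have hl1 : Real.log ((2 : ℝ) ^ (j + 1)) ≤ Real.log (2 * X) := Real.log_le_log (by positivity) hT2
    have g1 : (1 + Real.log ((2 : ℝ) ^ (j + 1))) ^ A ≤ (1 + Real.log (2 * X)) ^ A :=
      pow_le_pow_left₀ (by linarith) (by linarith) A
    have g2 : ((2 : ℝ) ^ (j + 1)) ^ ((d : ℝ) - κ * A) ≤ (2 * X) ^ ((d : ℝ) - κ * A) :=
      Real.rpow_le_rpow (by positivity) hT2 hs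
    have g3 : 0 ≤ (1 + Real.log (2 * X)) ^ A := by
      have : 0 ≤ Real.log (2 * X) := hl0.trans hl1
      positivity
    exact mul_le_mul (mul_le_mul_of_nonneg_left g1 (by positivity)) g2 (by positivity) (by positivity)
  have hlog2 : (1 / 2 : ℝ) ≤ Real.log 2 := by
    have := Real.log_two_gt_d9
    linarith
  have hL0 : 0 ≤ Real.log (2 * X) := Real.log_nonneg (by linarith)
  have hJ : ((J + 1 : ℕ) : ℝ) ≤ 2 * (1 + Real.log (2 * X)) := by
    have h3 : (J : ℝ) * Real.log 2 ≤ Real.log (2 * X) := by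
      rw [← Real.log_pow]
      exact Real.log_le_log (by positivity) (by linarith)
    have h4 : (0 : ℝ) ≤ (J : ℝ) := Nat.cast_nonneg _
    push_cast
    nlinarith
  have hsum : ∑ j ∈ range (J + 1), (((Fintype.piFinset (fun _ : Fin d => range (2 ^ lev ((2 : ℝ) ^ (j + 1))))).filter
        (Bad ((2 : ℝ) ^ (j + 1)))).card : ℝ) ≤ 2 * (4 ^ d * C₁ * 2 ^ ((d : ℝ) - κ * A + ε)) * X ^ ((d : ℝ) - κ * A + ε) := by
    refine (sum_le_sum hterm).trans ?_
    rw [sum_const, card_range, nsmul_eq_mul]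
    have h3 := hlogp (2 * X) (by linarith)
    have h4 : (0 : ℝ) ≤ (2 * X) ^ ((d : ℝ) - κ * A) := by positivity
    calc ((J + 1 : ℕ) : ℝ) * (4 ^ d * (1 + Real.log (2 * X)) ^ A * (2 * X) ^ ((d : ℝ) - κ * A))
        ≤ (2 * (1 + Real.log (2 * X))) * (4 ^ d * (1 + Real.log (2 * X)) ^ A * (2 * X) ^ ((d : ℝ) - κ * A)) :=
          mul_le_mul_of_nonneg_right hJ (by positivity)
      _ = 2 * 4 ^ d * (1 + Real.log (2 * X)) ^ (A + 1) * (2 * X) ^ ((d : ℝ) - κ * A) := by ring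
      _ ≤ 2 * 4 ^ d * (C₁ * (2 * X) ^ ε) * (2 * X) ^ ((d : ℝ) - κ * A) := by gcongr
      _ = 2 * (4 ^ d * C₁) * (2 * X) ^ ((d : ℝ) - κ * A + ε) := by
          rw [Real.rpow_add (by positivity) ((d : ℝ) - κ * A)]
          ring
      _ = 2 * (4 ^ d * C₁ * 2 ^ ((d : ℝ) - κ * A + ε)) * X ^ ((d : ℝ) - κ * A + ε) := by
          rw [Real.mul_rpow (by norm_num) hX0.le]
          ring
  have hone : (1 : ℝ) ≤ X ^ ((d : ℝ) - κ * A + ε) := Real.one_le_rpow hX (by linarith)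
  have hb0 : (0 : ℝ) ≤ ((b : ℝ) + 1) ^ d := by positivity
  calc (({m | m ∈ Fails Good κ c ∧ ∀ l, |((m l : ℕ) : ℝ)| ≤ X}.ncard : ℕ) : ℝ) ≤ U.card := by exact_mod_cast h1
    _ ≤ _ := h2
    _ ≤ ((b : ℝ) + 1) ^ d + 2 * (4 ^ d * C₁ * 2 ^ ((d : ℝ) - κ * A + ε)) * X ^ ((d : ℝ) - κ * A + ε) := by linarith
    _ ≤ (((b : ℝ) + 1) ^ d + 2 * (4 ^ d * C₁ * 2 ^ ((d : ℝ) - κ * A + ε))) * X ^ ((d : ℝ) - κ * A + ε) := by
        nlinarith

/-- **Digits and linear forms.** -/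
theorem tuple_digit {d : ℕ} {c : ℝ} (hc : 0 < c) (y₀ A : ℕ) (Good : ℕ → (Fin d → ℕ) → Prop)
    (H : ∀ (K r : Fin d → ℕ) (y : ℕ), (∀ l, 2 * r l ≤ K l) → y₀ ≤ y → ∀ N : Fin d → ℕ, (∀ l, N l < 2 ^ K l) →
      ∀ f : Fin d → ℕ → ℕ, (∀ l j, f l j < 2 ∧ f l j ≠ N l / 2 ^ j % 2) →
      ∃ W : Finset (Fin d → Finset ℕ), (W.card : ℝ) ≤ 1 / (y : ℝ) ^ A * ∏ l, ((K l).choose (r l) : ℝ) ∧
        ∀ S ∈ Fintype.piFinset (fun l => powersetCard (r l) (range (K l))), S ∉ W →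
          ∀ x : ℕ, y ≤ x → (∀ l, (x : ℝ) ≤ Real.exp (c * r l)) →
            Good x (fun l => ∑ i ∈ range (K l), (if i ∈ S l then f l i else N l / 2 ^ i % 2) * 2 ^ i))
    {κ : ℝ} (hκ : 0 < κ) (hκA : κ * A ≤ d) {ι : Type} {k : ℕ} (v : ι → Fin k → ℝ) {τ θ : ℝ} (hτ : 0 ≤ τ) (hθ : θ < 1)
    (hv : Fam v τ) :
    ∃ E : Set (Fin d × Fin k → ℝ),
      dimH E ≤ ENNReal.ofReal ((d : ℝ) * ((k : ℝ) - 1) + ((d : ℝ) - κ * A + τ) / (1 - θ)) ∧
      ∀ α, α ∉ E → ∀ c' : ℝ, {i | ∃ m ∈ Fails Good κ c, ∀ l, |(m l : ℝ) - ∑ j, α (l, j) * v i j| ≤ c' * ‖v i‖ ^ θ}.Finite :=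
  tuple_windows (Fails Good κ c) (fun m l => (m l : ℝ)) v (s := (d : ℝ) - κ * A) (by linarith) hτ hθ hv
    (fun ε hε => thin_digit hc y₀ A Good H hκ hκA ε hε)

end Pool.Agent.N251.LF
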