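import Pool.Agent.N251.LF.Tuples

/-!
# Thin sets from dyadic families of sets with few elements
-/

set_option autoImplicit false

open Finset

namespace Pool.Agent.N251.LF

/-- a set all of whose finite subsets have at most `r` elements -/
lemma finite_of_bound {T : Type} (S : Set T) {r : ℝ} (h : ∀ E : Finset T, (∀ t ∈ E, t ∈ S) → (E.card : ℝ) ≤ r) :
    S.Finite ∧ (S.ncard : ℝ) ≤ r := by
  have hfin : S.Finite := by
    by_contra hinf
    obtain ⟨E, hE, hc⟩ := Set.Infinite.exists_subset_card_eq hinf (⌊r⌋₊ + 1)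
    have h1 := h E (fun t ht => hE ht)
    rw [hc] at h1
    have h2 := Nat.lt_floor_add_one r
    push_cast at h1
    linarith
  refine ⟨hfin, ?_⟩
  have h1 := h hfin.toFinset (fun t ht => by simpa using ht)
  rwa [Set.ncard_eq_toFinset_card _ hfin]

/-- Let `Bad j` have at most `C j` elements for all `j ≥ 1`. The elements `t` which lie in `Bad j` for some `j ≥ 1` with
`2 ^ j ≤ (3 + max |h t l|) ^ B` are rarer than every power. -/
lemma thin_dyadic {T : Type} {m : ℕ} (h : T → Fin m → ℝ) (Bad : ℕ → Set T) (B : ℕ) {C : ℝ} (hC : 0 ≤ C)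
    (hBad : ∀ j : ℕ, 1 ≤ j → ∀ E : Finset T, (∀ t ∈ E, t ∈ Bad j) → (E.card : ℝ) ≤ C * j) :
    ∀ ε : ℝ, 0 < ε → ∃ C' : ℝ, ∀ X : ℝ, 1 ≤ X →
      {t | t ∈ {t | ∃ j : ℕ, 1 ≤ j ∧ (∃ l, (2 : ℝ) ^ j ≤ (3 + |h t l|) ^ B) ∧ t ∈ Bad j} ∧ ∀ l, |h t l| ≤ X}.Finite ∧
      ({t | t ∈ {t | ∃ j : ℕ, 1 ≤ j ∧ (∃ l, (2 : ℝ) ^ j ≤ (3 + |h t l|) ^ B) ∧ t ∈ Bad j} ∧
        ∀ l, |h t l| ≤ X}.ncard : ℝ) ≤ C' * X ^ (0 + ε) := by
  classical
  intro ε hε
  have hl2 : 0 < Real.log 2 := Real.log_pos (by norm_num)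
  obtain ⟨K, hK⟩ : ∃ K : ℝ, K = B * (2 + 2 / ε) / Real.log 2 + 1 := ⟨_, rfl⟩
  have hK0 : 0 ≤ K := by rw [hK]; positivity
  refine ⟨C * K ^ 2, fun X hX => ?_⟩
  have hX0 : (0 : ℝ) < X := by linarith
  obtain ⟨J, hJ⟩ : ∃ J : ℕ, J = ⌊B * (2 + Real.log X) / Real.log 2⌋₊ := ⟨_, rfl⟩
  have hlX : 0 ≤ Real.log X := Real.log_nonneg hX
  have hB0 : (0 : ℝ) ≤ B := Nat.cast_nonneg B
  have hfin : ∀ j : ℕ, 1 ≤ j → (Bad j).Finite ∧ ((Bad j).ncard : ℝ) ≤ C * j := fun j hj =>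
    finite_of_bound (Bad j) (hBad j hj)
  -- all `j` are at most `J`
  set F : Finset T := (Icc 1 J).attach.biUnion fun j => (hfin j.1 (mem_Icc.1 j.2).1).1.toFinset with hF
  have hsub : {t | t ∈ {t | ∃ j : ℕ, 1 ≤ j ∧ (∃ l, (2 : ℝ) ^ j ≤ (3 + |h t l|) ^ B) ∧ t ∈ Bad j} ∧
      ∀ l, |h t l| ≤ X} ⊆ (F : Set T) := by
    rintro t ⟨⟨j, hj, ⟨l, hl⟩, ht⟩, hX2⟩
    have h1 : (2 : ℝ) ^ j ≤ (4 * X) ^ B := by
      refine hl.trans (pow_le_pow_left₀ (by positivity) ?_ B)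
      have := hX2 l
      linarith
    have h2 : (j : ℝ) * Real.log 2 ≤ B * (2 + Real.log X) := by
      have h3 := Real.log_le_log (by positivity) h1
      rw [Real.log_pow, Real.log_pow, Real.log_mul (by norm_num) hX0.ne'] at h3
      have h4 : Real.log 4 ≤ 2 := by
        have : Real.log 4 = 2 * Real.log 2 := by
          rw [show (4 : ℝ) = 2 ^ 2 by norm_num, Real.log_pow]
          norm_num
        have := Real.log_two_lt_d9
        linarith
      calc (j : ℝ) * Real.log 2 ≤ B * (Real.log 4 + Real.log X) := h3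
        _ ≤ B * (2 + Real.log X) := mul_le_mul_of_nonneg_left (by linarith) hB0
    have h3 : j ≤ J := by
      rw [hJ]
      apply Nat.le_floor
      rw [le_div_iff₀ hl2]
      exact h2
    rw [mem_coe, hF, mem_biUnion]
    exact ⟨⟨j, mem_Icc.2 ⟨hj, h3⟩⟩, mem_attach _ _, by simpa using ht⟩
  refine ⟨(finite_toSet F).subset hsub, ?_⟩
  have h1 := Set.ncard_le_ncard hsub (finite_toSet F)
  rw [Set.ncard_coe_finset] at h1
  have hJr : (J : ℝ) ≤ B * (2 + Real.log X) / Real.log 2 := by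
    rw [hJ]
    exact Nat.floor_le (by positivity)
  have h2 : (F.card : ℝ) ≤ C * J * J := by
    have h3 : F.card ≤ ∑ j ∈ (Icc 1 J).attach, ((hfin j.1 (mem_Icc.1 j.2).1).1.toFinset).card := card_biUnion_le
    have h4 : (F.card : ℝ) ≤ ∑ j ∈ (Icc 1 J).attach, (((hfin j.1 (mem_Icc.1 j.2).1).1.toFinset).card : ℝ) := by
      exact_mod_cast h3
    refine h4.trans ?_
    calc ∑ j ∈ (Icc 1 J).attach, (((hfin j.1 (mem_Icc.1 j.2).1).1.toFinset).card : ℝ)
        ≤ ∑ _j ∈ (Icc 1 J).attach, C * J := by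
          refine sum_le_sum fun j _ => ?_
          have h5 := (hfin j.1 (mem_Icc.1 j.2).1).2
          rw [Set.ncard_eq_toFinset_card _ (hfin j.1 (mem_Icc.1 j.2).1).1] at h5
          refine h5.trans (mul_le_mul_of_nonneg_left ?_ hC)
          exact_mod_cast (mem_Icc.1 j.2).2
      _ = C * J * J := by
          rw [sum_const, card_attach, Nat.card_Icc, nsmul_eq_mul, Nat.add_sub_cancel]
          ring
  have h3 : (J : ℝ) ≤ K * X ^ (ε / 2) := by
    have h4 : Real.log X ≤ X ^ (ε / 2) / (ε / 2) := Real.log_le_rpow_div hX0.le (by positivity)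
    have h5 : (1 : ℝ) ≤ X ^ (ε / 2) := Real.one_le_rpow hX (by positivity)
    have h6 : 2 + Real.log X ≤ (2 + 2 / ε) * X ^ (ε / 2) := by
      have : X ^ (ε / 2) / (ε / 2) = 2 / ε * X ^ (ε / 2) := by field_simp
      rw [this] at h4
      nlinarith
    calc (J : ℝ) ≤ B * (2 + Real.log X) / Real.log 2 := hJr
      _ ≤ B * ((2 + 2 / ε) * X ^ (ε / 2)) / Real.log 2 := by
          apply div_le_div_of_nonneg_right _ hl2.le
          exact mul_le_mul_of_nonneg_left h6 hB0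
      _ = B * (2 + 2 / ε) / Real.log 2 * X ^ (ε / 2) := by ring
      _ ≤ K * X ^ (ε / 2) := by
          apply mul_le_mul_of_nonneg_right _ (by positivity)
          rw [hK]
          linarith
  have h4 : (J : ℝ) * J ≤ K ^ 2 * X ^ (0 + ε) := by
    have h5 : X ^ (0 + ε) = X ^ (ε / 2) * X ^ (ε / 2) := by
      rw [← Real.rpow_add hX0]
      congr 1
      ring
    have hJ0 : (0 : ℝ) ≤ J := Nat.cast_nonneg J
    calc (J : ℝ) * J ≤ (K * X ^ (ε / 2)) * (K * X ^ (ε / 2)) := mul_le_mul h3 h3 hJ0 (by positivity)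
      _ = K ^ 2 * X ^ (0 + ε) := by rw [h5]; ring
  calc _ ≤ (F.card : ℝ) := by exact_mod_cast h1
    _ ≤ C * J * J := h2
    _ = C * (J * J) := by ring
    _ ≤ C * (K ^ 2 * X ^ (0 + ε)) := mul_le_mul_of_nonneg_left h4 hC
    _ = C * K ^ 2 * X ^ (0 + ε) := by ring

end Pool.Agent.N251.LF
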