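import Mathlib

/-!
# Countability of the set of all number fields, and null sets (from `MP_1f047c_nt/BestApproximations`)
-/

set_option autoImplicit false

namespace Pool.Agent.N251.LF

open Module MeasureTheory

/-- there are only countably many number fields -/
theorem countable_fields : Countable {K : IntermediateField ℚ ℂ // FiniteDimensional ℚ K} := by
  have h1 : Countable {x : ℂ // IsAlgebraic ℚ x} := (Algebraic.countable ℚ ℂ).to_subtype
  have h2 : ∀ K : {K : IntermediateField ℚ ℂ // FiniteDimensional ℚ K},
      ∃ x : {x : ℂ // IsAlgebraic ℚ x}, IntermediateField.adjoin ℚ {(x : ℂ)} = K.1 := by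
    rintro ⟨K, hK⟩
    obtain ⟨a, ha⟩ := @Field.exists_primitive_element ℚ K _ _ K.algebra' hK inferInstance
    refine ⟨⟨(a : ℂ), ?_⟩, ?_⟩
    · exact (Algebra.IsAlgebraic.isAlgebraic (R := ℚ) a).algebraMap
    · have h3 := congr_arg IntermediateField.lift ha
      rw [IntermediateField.lift_top, IntermediateField.lift_adjoin_simple] at h3
      exact h3
  choose f hf using h2
  refine Function.Injective.countable (f := f) fun K L hKL => ?_
  apply Subtype.ext
  rw [← hf K, ← hf L, hKL]

/-- a set of small dimension is a null set -/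
theorem null_of_dim {ι : Type} [Fintype ι] {E : Set (ι → ℝ)} {s : ℝ} (hE : dimH E ≤ ENNReal.ofReal s)
    (hs : s < Fintype.card ι) (hc : 0 < Fintype.card ι) : volume E = 0 := by
  rw [← hausdorffMeasure_pi_real]
  have hc' : (0 : ℝ) < Fintype.card ι := by exact_mod_cast hc
  have h1 : dimH E < ((Fintype.card ι : NNReal) : ENNReal) := by
    refine hE.trans_lt ?_
    have h2 := (ENNReal.ofReal_lt_ofReal_iff hc').2 hs
    have h3 : ENNReal.ofReal (Fintype.card ι : ℝ) = ((Fintype.card ι : NNReal) : ENNReal) := by
      rw [ENNReal.ofReal_natCast]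
      rfl
    rwa [h3] at h2
  have h4 := hausdorffMeasure_of_dimH_lt h1
  exact_mod_cast h4

end Pool.Agent.N251.LF
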