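import Pool.Agent.R479.DB.Lim

/-!
# The points in infinitely many slabs
-/

set_option autoImplicit false

namespace Pool.Agent.N251.LF

open Finset Classical

/-- **Slabs.** If `O (X ^ (ρ + ε))` of the vectors `v i` are of size at most `X`, then the points in infinitely many of the
slabs `|∑ α_j v_(i,j) - y_i| ≤ c |v_i| ^ θ` form a set of dimension at most `k - 1 + ρ / (1 - θ)`. Here the coordinate `j0` is
the largest one for all the vectors. -/
theorem slab_core {k : ℕ} (j0 : Fin k) {ι : Type} [Countable ι] (v : ι → Fin k → ℝ) (y : ι → ℝ)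
    (hv1 : ∀ i, 1 ≤ |v i j0|) (hvj : ∀ i j, |v i j| ≤ |v i j0|) {ρ θ : ℝ} (hρ : 0 ≤ ρ) (hθ : θ < 1)
    (hcount : ∀ ε : ℝ, 0 < ε → ∃ C : ℝ, ∀ X : ℝ, 1 ≤ X → {i | |v i j0| ≤ X}.Finite ∧
      (({i | |v i j0| ≤ X}.ncard : ℕ) : ℝ) ≤ C * X ^ (ρ + ε)) (R c : ℕ) :
    dimH {α : Fin k → ℝ | ‖α‖ ≤ R ∧ {i | |∑ j, α j * v i j - y i| ≤ c * |v i j0| ^ θ}.Infinite} ≤
      ENNReal.ofReal ((k : ℝ) - 1 + ρ / (1 - θ)) := by
  apply ENNReal.le_of_forall_pos_le_add
  intro ε hε _
  have hε' : (0 : ℝ) < ε := by exact_mod_cast hε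
  have h1θ : 0 < 1 - θ := by linarith
  have hk : 1 ≤ k := by
    have := j0.2
    omega
  have hk1 : (1 : ℝ) ≤ k := by exact_mod_cast hk
  have hpos0 : 0 ≤ ρ / (1 - θ) := by positivity
  rw [← ENNReal.ofReal_coe_nnreal (p := ε), ← ENNReal.ofReal_add (by linarith) hε'.le]
  set D : ℝ := (k : ℝ) - 1 + ρ / (1 - θ) + ε with hD
  have hD0 : 0 < D := by linarith
  have hDθ : (1 - θ) * D = (1 - θ) * ((k : ℝ) - 1) + ρ + ε * (1 - θ) := by
    rw [hD]
    field_simp
  obtain ⟨C, hC⟩ := hcount (ε * (1 - θ) / 2) (by positivity)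
  set J : Type := {j : Fin k // j ≠ j0} with hJ
  set κ : Type := {t : ι × (J → ℤ) // ∀ x, |(t.2 x : ℝ)| ≤ ((R : ℝ) + 1) * |v t.1 j0| ^ (1 - θ)} with hκ
  have hpos : ∀ t : κ, (1 : ℝ) ≤ |v t.1.1 j0| := fun t => hv1 t.1.1
  set U : κ → Set (Fin k → ℝ) := fun t =>
    {α | |∑ j, α j * v t.1.1 j - y t.1.1| ≤ c * |v t.1.1 j0| ^ θ ∧
      ∀ x : J, |α x.1 * |v t.1.1 j0| ^ (1 - θ) - t.1.2 x| ≤ 1} with hU
  have h1 := Pool.Agent.R479.DB.dimH_limsup U (fun t => (2 * c + 2 * k) * |v t.1.1 j0| ^ (-(1 - θ))) (fun t => by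
      have := hpos t
      positivity) (fun t => by
        have ht := hpos t
        have hvj' := hvj t.1.1
        obtain ⟨H, hH⟩ : ∃ H : ℝ, H = |v t.1.1 j0| := ⟨_, rfl⟩
        rw [← hH] at ht hvj' ⊢
        have ht0 : (0 : ℝ) < H := by linarith
        refine Metric.ediam_le fun x hx z hz => ?_
        rw [edist_dist]
        apply ENNReal.ofReal_le_ofReal
        rw [dist_pi_le_iff (by positivity)]
        intro j
        rw [Real.dist_eq]
        obtain ⟨hx1, hx2⟩ := hx
        obtain ⟨hz1, hz2⟩ := hz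
        rw [← hH] at hx1 hz1
        have hθH : H ^ (-(1 - θ)) = H ^ θ / H := by
          rw [show -(1 - θ) = θ - 1 by ring, Real.rpow_sub_one ht0.ne']
        have hinv : H ^ (-(1 - θ)) * H ^ (1 - θ) = 1 := by
          rw [← Real.rpow_add ht0]
          simp
        have hHn : 0 < H ^ (-(1 - θ)) := by positivity
        have hother : ∀ i : Fin k, i ≠ j0 → |x i - z i| ≤ 2 * H ^ (-(1 - θ)) := by
          intro i hi
          have a1 := hx2 ⟨i, hi⟩
          have a2 := hz2 ⟨i, hi⟩
          rw [← hH] at a1 a2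
          simp only at a1 a2
          have a3 : |(x i - z i) * H ^ (1 - θ)| ≤ 2 := by
            have : (x i - z i) * H ^ (1 - θ) = (x i * H ^ (1 - θ) - t.1.2 ⟨i, hi⟩) -
                (z i * H ^ (1 - θ) - t.1.2 ⟨i, hi⟩) := by ring
            rw [this]
            refine (abs_sub _ _).trans ?_
            linarith
          rw [abs_mul, abs_of_pos (by positivity : 0 < H ^ (1 - θ))] at a3
          calc |x i - z i| = (|x i - z i| * H ^ (1 - θ)) * H ^ (-(1 - θ)) := by
                rw [mul_assoc, mul_comm (H ^ (1 - θ)), hinv, mul_one]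
            _ ≤ 2 * H ^ (-(1 - θ)) := by gcongr
        by_cases hj : j = j0
        · subst hj
          have b1 : |∑ i, (x i - z i) * v t.1.1 i| ≤ 2 * c * H ^ θ := by
            have : ∑ i, (x i - z i) * v t.1.1 i = (∑ i, x i * v t.1.1 i - y t.1.1) -
                (∑ i, z i * v t.1.1 i - y t.1.1) := by
              rw [sub_sub_sub_cancel_right, ← Finset.sum_sub_distrib]
              exact Finset.sum_congr rfl fun i _ => by ring
            rw [this]
            refine (abs_sub _ _).trans ?_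
            linarith
          have b2 : |∑ i ∈ univ.erase j, (x i - z i) * v t.1.1 i| ≤ (k - 1) * (2 * H ^ (-(1 - θ)) * H) := by
            refine (Finset.abs_sum_le_sum_abs _ _).trans ?_
            have : ∀ i ∈ univ.erase j, |(x i - z i) * v t.1.1 i| ≤ 2 * H ^ (-(1 - θ)) * H := by
              intro i hi
              rw [abs_mul]
              exact mul_le_mul (hother i (Finset.ne_of_mem_erase hi)) (hvj' i) (abs_nonneg _) (by positivity)
            refine (Finset.sum_le_sum this).trans ?_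
            rw [Finset.sum_const, Finset.card_erase_of_mem (Finset.mem_univ _), Finset.card_univ, Fintype.card_fin,
              nsmul_eq_mul]
            rw [Nat.cast_sub hk, Nat.cast_one]
          have b3 : |(x j - z j) * v t.1.1 j| ≤ 2 * c * H ^ θ + (k - 1) * (2 * H ^ (-(1 - θ)) * H) := by
            have : (x j - z j) * v t.1.1 j = ∑ i, (x i - z i) * v t.1.1 i -
                ∑ i ∈ univ.erase j, (x i - z i) * v t.1.1 i := by
              rw [← Finset.add_sum_erase univ _ (Finset.mem_univ j)]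
              ring
            rw [this]
            exact (abs_sub _ _).trans (add_le_add b1 b2)
          rw [abs_mul, ← hH] at b3
          have b4 : H ^ (-(1 - θ)) * H = H ^ θ := by
            rw [hθH]
            field_simp
          rw [mul_assoc 2 (H ^ (-(1 - θ))) H, b4] at b3
          have b5 : |x j - z j| ≤ (2 * c * H ^ θ + (k - 1) * (2 * H ^ θ)) / H := by
            rw [le_div_iff₀ ht0]
            exact b3
          refine b5.trans ?_
          rw [hθH]
          have b6 : 0 ≤ H ^ θ / H := by positivity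
          have b7 : (2 * c * H ^ θ + (k - 1) * (2 * H ^ θ)) / H = (2 * c + 2 * (k - 1)) * (H ^ θ / H) := by
            field_simp
          rw [b7]
          nlinarith
        · refine (hother j hj).trans ?_
          have : (0 : ℝ) ≤ c := Nat.cast_nonneg c
          nlinarith) hD0 (by
      have h2 := Pool.Agent.R479.DA.summable_heights (ι := κ) (fun t => |v t.1.1 j0|) hpos
        (s := (1 - θ) * ((k : ℝ) - 1) + ρ + ε * (1 - θ) / 2) (p := (1 - θ) * D)
        (C := |C| * (2 * (R + 1) + 1) ^ (k - 1))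
        (by rw [hDθ]; nlinarith [mul_pos hε' h1θ]) (by positivity) (by
          intro X hX
          obtain ⟨hfin0, hcard0⟩ := hC X hX
          have hX0 : (0 : ℝ) < X := by linarith
          have hXθ : (1 : ℝ) ≤ X ^ (1 - θ) := Real.one_le_rpow hX h1θ.le
          obtain ⟨L, hL⟩ : ∃ L : ℝ, L = (R + 1) * X ^ (1 - θ) := ⟨_, rfl⟩
          have hL0 : 0 ≤ L := by rw [hL]; positivity
          set F : Finset (ι × (J → ℤ)) := hfin0.toFinset ×ˢ
            Fintype.piFinset (fun _ : J => Icc (-⌊L⌋) ⌊L⌋) with hF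
          have hmaps : Set.MapsTo (Subtype.val : κ → ι × (J → ℤ)) {t | |v t.1.1 j0| ≤ X} (F : Set _) := by
            intro t ht
            rw [hF, Finset.mem_coe, mem_product, Set.Finite.mem_toFinset, Fintype.mem_piFinset]
            refine ⟨ht, fun x => ?_⟩
            have h3 := t.2 x
            have h4 : |(t.1.2 x : ℝ)| ≤ L := by
              refine h3.trans ?_
              rw [hL]
              have : |v t.1.1 j0| ^ (1 - θ) ≤ X ^ (1 - θ) := Real.rpow_le_rpow (abs_nonneg _) ht h1θ.le
              gcongr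
            have h5 := abs_le.1 h4
            rw [mem_Icc]
            refine ⟨?_, Int.le_floor.2 h5.2⟩
            rw [neg_le]
            apply Int.le_floor.2
            push_cast
            linarith
          have hinj : Set.InjOn (Subtype.val : κ → ι × (J → ℤ)) {t | |v t.1.1 j0| ≤ X} :=
            Subtype.val_injective.injOn
          have hfin : {t : κ | |v t.1.1 j0| ≤ X}.Finite := (Finset.finite_toSet F).of_injOn hmaps hinj
          refine ⟨hfin, ?_⟩
          have h3 := Set.ncard_le_ncard_of_injOn _ hmaps hinj (Finset.finite_toSet F)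
          rw [Set.ncard_coe_finset, hF, card_product, Fintype.card_piFinset] at h3
          simp only [Int.card_Icc, prod_const, card_univ] at h3
          have hJc : Fintype.card J = k - 1 := by
            have : Fintype.card {j : Fin k // j ≠ j0} = k - 1 := by simp
            exact this
          rw [hJc] at h3
          have h5 : (((⌊L⌋ + 1 - -⌊L⌋).toNat : ℕ) : ℝ) ≤ (2 * (R + 1) + 1) * X ^ (1 - θ) := by
            have hfl : 0 ≤ ⌊L⌋ := Int.floor_nonneg.2 hL0
            have e1 : (((⌊L⌋ + 1 - -⌊L⌋).toNat : ℕ) : ℝ) = 2 * (⌊L⌋ : ℝ) + 1 := by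
              have : (((⌊L⌋ + 1 - -⌊L⌋).toNat : ℕ) : ℤ) = 2 * ⌊L⌋ + 1 := by
                rw [Int.toNat_of_nonneg (by omega)]
                ring
              exact_mod_cast this
            rw [e1]
            have e2 := Int.floor_le L
            rw [hL] at e2 ⊢
            nlinarith
          have hncard : (hfin0.toFinset.card : ℝ) ≤ |C| * X ^ (ρ + ε * (1 - θ) / 2) := by
            rw [← Set.ncard_eq_toFinset_card _ hfin0]
            exact hcard0.trans (mul_le_mul_of_nonneg_right (le_abs_self C) (by positivity))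
          calc (({t : κ | |v t.1.1 j0| ≤ X}.ncard : ℕ) : ℝ)
              ≤ (hfin0.toFinset.card : ℝ) * (((⌊L⌋ + 1 - -⌊L⌋).toNat : ℕ) : ℝ) ^ (k - 1) := by exact_mod_cast h3
            _ ≤ (|C| * X ^ (ρ + ε * (1 - θ) / 2)) * ((2 * (R + 1) + 1) * X ^ (1 - θ)) ^ (k - 1) := by
                gcongr
            _ = |C| * (2 * (R + 1) + 1) ^ (k - 1) * X ^ ((1 - θ) * ((k : ℝ) - 1) + ρ + ε * (1 - θ) / 2) := by
                rw [mul_pow, show (1 - θ) * ((k : ℝ) - 1) + ρ + ε * (1 - θ) / 2 =
                  (ρ + ε * (1 - θ) / 2) + (1 - θ) * ((k - 1 : ℕ) : ℝ) by rw [Nat.cast_sub hk]; push_cast; ring,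
                  Real.rpow_add hX0 (ρ + ε * (1 - θ) / 2), Real.rpow_mul hX0.le, Real.rpow_natCast]
                ring)
      refine (h2.mul_left (((2 * c + 2 * k : ℝ)) ^ D)).congr fun t => ?_
      have ht := hpos t
      have ht0 : (0 : ℝ) < |v t.1.1 j0| := by linarith
      rw [Real.mul_rpow (by positivity) (by positivity), ← Real.rpow_mul ht0.le]
      congr 2
      ring)
  refine le_trans (dimH_mono ?_) h1
  rintro α ⟨hα, hα2⟩
  simp only [Set.mem_ofPred_eq]
  intro hfin
  apply hα2
  have hf2 := hfin.image (fun t : κ => t.1.1)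
  refine hf2.subset ?_
  intro i hi
  have hi1 := hv1 i
  have hiθ : (1 : ℝ) ≤ |v i j0| ^ (1 - θ) := Real.one_le_rpow hi1 h1θ.le
  refine ⟨⟨(i, fun x => ⌊α x.1 * |v i j0| ^ (1 - θ)⌋), fun x => ?_⟩, ⟨hi, fun x => ?_⟩, rfl⟩
  · simp only
    have e1 : |α x.1| ≤ R := (norm_le_pi_norm α x.1).trans hα
    have e2 : |α x.1 * |v i j0| ^ (1 - θ)| ≤ R * |v i j0| ^ (1 - θ) := by
      rw [abs_mul, abs_of_nonneg (by positivity : 0 ≤ |v i j0| ^ (1 - θ))]
      gcongr
    have e3 := abs_le.1 e2
    have e4 := Int.floor_le (α x.1 * |v i j0| ^ (1 - θ))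
    have e5 := Int.lt_floor_add_one (α x.1 * |v i j0| ^ (1 - θ))
    rw [abs_le]
    constructor <;> nlinarith
  · simp only
    have e4 := Int.floor_le (α x.1 * |v i j0| ^ (1 - θ))
    have e5 := Int.lt_floor_add_one (α x.1 * |v i j0| ^ (1 - θ))
    rw [abs_le]
    constructor <;> linarith

end Pool.Agent.N251.LF
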